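import Pool.Agent.Q274.HD.Stm
import Pool.Agent.Q274.BKC.Stm2
import Pool.Agent.Q182.JQ.ELL

/-!
# Project HD: jobs

Each job `S_XXX` is a statement to be proved as a theorem `t_XXX : S_XXX`. The hypotheses of the form
`S_YYY →` may be used freely. General remarks.

* `GQ = Gal(QB/ℚ)`, `ZB` the ring of all algebraic integers, `Dec Q`, `Ine Q` the decomposition and the
  inertia group of a maximal ideal `Q` of `ZB` (sets of automorphisms, `Pool.Agent.Q274.BKC.Stm`).
* `LocJ K b d` (`Pool.Agent.TH344.JG.Stm`): the tuple `d` of integers is modulo squares of `K` in the image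
  of the Kummer map of `y ^ 2 = (x - b 0) (x - b 1) (x - b 2)` over `K`. Tools:
  `Q182.JQ.ELL.pt_LocJ` (a point with `y ≠ 0` gives `LocJ`), `Q182.JQ.ELL.Pt_one`, `Pt_tor` (the points
  `O` and the point of order two; `D e i` is the product of the `e i - e j`, `j ≠ i`), `H3_real`,
  `H3_padic` (the hypothesis `H3 K` for `ℝ` and `ℚ_p`), and in `Pool.Agent.Y723.PT.Lg`: `locJ_iff`
  (`LocJ K a d ↔ LG ..`, by `Iff.rfl`), `LG.mul` (products), `LG.congr` (change by squares).
* `Pool.Agent.Q95.BKC.t_RAM : BKC.S_RAM` is proved: if `x ≠ 0` has odd valuation at `v` there is an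
  element of the inertia group of `Q` above `v` which moves the square roots of `x`.
-/

set_option autoImplicit false
set_option linter.unusedVariables false

namespace Pool.Agent.Q274.HD

open NumberField
open Pool.Agent.Q274.BKC (GK OB Dec Ine)
open Pool.Agent.TH344.JG (LocJ SelJ)
open Q182.JQ.ELL (H3)
open scoped Classical Matrix

/-! ### The elliptic curve -/

/-- `P` is the point `(b j, 0)` of order two -/
def IsT (b : Fin 3 → ℤ) (j : Fin 3) (P : Pt b) : Prop :=
  ∃ h, P = WeierstrassCurve.Affine.Point.some ((b j : ℤ) : QB) 0 h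

/-- HD-1 (HALF). Let `2 P = T i := (b i, 0)`, `j ≠ i`, `k` the third index, `y ^ 2 = b i - b j`. Then
`σ y = y` iff `σ P - P` is `O` or `T j`. Proof. For `r`, `s` with `r ^ 2 = b i - b j`, `s ^ 2 = b i - b k` put
`P(r, s) = (b i + r s, r s (r + s))`. One has `x - b i = r s`, `x - b j = r (r + s)`, `x - b k = s (r + s)`, so
this is a point of the curve (`r s (r + s) ≠ 0` since the `b` are different).
(1) `P = P(r, s)` for some `r ∈ {y, -y}` and some `s`. Let `P = (X + b i, Y)`, `A = b i - b j`,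
`B = b i - b k`. `2 P = T i` (of order two) implies `Y ≠ 0` and that the slope `l` of the tangent line
(`l = slope P P`) satisfies, by the formulas for the addition, `l ^ 2 = 2 X + A + B` (the `x`-coordinate of `2 P`
is `b i`) and `Y = l X` (the `y`-coordinate of `2 P` is `0`). With `Y ^ 2 = X (X + A) (X + B)` and `X ≠ 0`
one gets `(X + A) (X + B) = X (2 X + A + B)`, that is `X ^ 2 = A B`. Put `r = y`, `s = X / y`; `s ^ 2 = B`,
`l ^ 2 = (r + s) ^ 2`, `Y = ± r s (r + s)`, and if the sign is `-` replace `(r, s)` by `(-r, -s)`.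
(2) `P(r, -s) = P(r, s) + T j`, `P(-r, s) = P(r, s) + T k` : the line through `P(r, s)` and `T j` has the slope
`s`; the third point of intersection has `x = s ^ 2 + b i + b k - (b i + r s) = b i - r s` and
`y = s (b i - b j - r s) = r s (r - s)`. Hence `P(-r, -s) = P(r, s) + T i` (or: `P(-r,-s) = - P(r, s)`, and
`2 P = T i`).
(3) `σ P(r, s) = P(σ r, σ s)`, `σ r = ± r`, `σ s = ± s`. So `σ P - P` is `O, T j, T k, T i` in the cases
`(σ r, σ s) = (r, s), (r, -s), (-r, s), (-r, -s)`. The `T`s are different and not `O`. -/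
def S_HALF : Prop := ∀ b : Fin 3 → ℤ, Function.Injective b → ∀ (P : Pt b) (i j : Fin 3), i ≠ j →
  IsT b i (P + P) → ∀ (σ : GQ) (y : QB), y ^ 2 = ((b i - b j : ℤ) : QB) →
  (σ y = y ↔ (gal b σ P - P = 0 ∨ IsT b j (gal b σ P - P)))

/-- the linear form with coefficients `l` on `T / 2 T` -/
noncomputable def pr (l : Fin 2 → ZMod 2) (t : T2) : ZMod 2 :=
  ∑ k, l k * PadicInt.toZMod (p := 2) (t k)

/-- the action of the Galois group on `T / 4 T` in terms of the square roots of the differences `b i - b j`: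
`L 0, L 1, L 2` are the three nonzero linear forms on `T / 2 T`, and if `ρ σ t = t + 2 u`, `t` is not in
`2 T` and `L i t = 0` then `σ` fixes the square roots of `b i - b j` iff `L j u = 0` -/
structure Dat (b : Fin 3 → ℤ) (ρ : Rep) (L : Fin 3 → Fin 2 → ZMod 2) : Prop where
  ne : ∀ j, L j ≠ 0
  inj : Function.Injective L
  two : ∀ (σ : GQ) (t : T2), ∃ u : T2, ρ σ *ᵥ t = t + (2 : ℤ_[2]) • u
  kum : ∀ i j : Fin 3, i ≠ j → ∀ (t u : T2) (σ : GQ), (∃ k, ¬ (2 : ℤ_[2]) ∣ t k) → pr (L i) t = 0 →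
    ρ σ *ᵥ t = t + (2 : ℤ_[2]) • u → ∀ y : QB, y ^ 2 = ((b i - b j : ℤ) : QB) →
    (σ y = y ↔ pr (L j) u = 0)

/-- HD-2 (EXT). Proof. Let `π : T → E(QB)` be as in `Congr`. For `t ∈ T` the point `π (2 t)` is killed by
two, hence is `O` or one of the `T j = (b j, 0)` (`P + P = 0` for `P = (x, y)` means `y = -y`, so `y = 0` and
`(x - b 0) (x - b 1) (x - b 2) = 0`). `π (2 t) = O` iff `t ∈ 2 T`; so `t ↦ π (2 t)` is an isomorphism of
`T / 2 T` (four elements) with `{O, T 0, T 1, T 2}` (injective, four elements each). `L j` is the linear form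
which vanishes on the `t` with `π (2 t) ∈ {O, T j}`: that set modulo `2` is a subgroup with two elements
`{0, e j}`, `e 0, e 1, e 2` the three nonzero vectors of `(ZMod 2) ^ 2`; for `e = (e 0, e 1)` take
`L = (e 1, e 0)`, that is the form `t ↦ e 1 t 0 + e 0 t 1` (the determinant); it is zero on `t` iff
`t ∈ {0, e}`. `ne`, `inj` are clear. `two`: `σ` fixes the points `T j`, so
`π (2 (ρ σ t - t)) = σ π (2 t) - π (2 t) = 0`, hence `4 ∣ 2 (ρ σ t - t)`. `kum`: for `t` with `L i t = 0`, not in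
`2 T`, `P = π t` satisfies `P + P = π (2 t) = T i`, and `σ P - P = π (ρ σ t - t) = π (2 u)`; it is `O` or `T j` iff
`L j u = 0`. Apply `S_HALF`. -/
def S_EXT : Prop := S_HALF → ∀ (b : Fin 3 → ℤ) (ρ : Rep), Function.Injective b → Congr b ρ →
  ∃ L : Fin 3 → Fin 2 → ZMod 2, Dat b ρ L

/-! ### Galois theory -/

/-- HD-3 (QCH). Quadratic characters: a locally constant homomorphism from the absolute Galois group to
`ℤ / 2` belongs to a quadratic field (or is zero, `d = 1`): fixed field of the kernel, an open subgroup of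
index one or two, `= ℚ(√d)`; change `d` by squares to a squarefree integer. (Compare the proof of
`Pool.Agent.Q274.BKC.S_RED`, file `Q26/BKC` or similar, where the same is done over `K`.) -/
def S_QCH : Prop := ∀ χ : GQ → ZMod 2, IsLocallyConstant χ → (∀ σ τ, χ (σ * τ) = χ σ + χ τ) →
  ∃ d : ℤ, Squarefree d ∧ ∀ (σ : GQ) (y : QB), y ^ 2 = ((d : ℤ) : QB) → (σ y = y ↔ χ σ = 0)

/-- `Q` is the prime of the embedding `ι` of the algebraic numbers in the algebraic closure of `ℚ_l` -/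
structure EmbQ (l : ℕ) [Fact l.Prime] (Q : Ideal ZB) (ι : QB →+* PadicAlgCl l) : Prop where
  mem : ∀ z : ZB, z ∈ Q ↔ ‖ι (z : QB)‖ < 1
  res : ∀ τ : Gal(PadicAlgCl l/ℚ_[l]), ∃ σ ∈ Dec Q, ∀ x : QB, τ (ι x) = ι (σ x)

/-- HD-4 (EMB). (a) Every maximal ideal `Q` above `l` is the prime of an embedding; `res`: the restriction
of `τ` to the algebraic numbers is in the decomposition group of `Q`, since `τ` does not change the norm.
(b) If all elements of `Dec Q` fix the square roots of the integer `z`, then `z` is a square in `ℚ_l`: `ι y` is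
fixed by all `τ` (by `res`), so it is in `ℚ_l`. For (a): compare the file `Pool/Agent/Q154/BKC/EMB.lean`
(the theorem `t_EMB` is nearly the same statement, over an imaginary quadratic field): take any embedding
`ι₀`, its prime `Q₀ = {z | ‖ι₀ z‖ < 1}` is maximal and contains `l`; the Galois group acts transitively on
the maximal ideals above `l`, so `Q = σ Q₀` and `ι = ι₀ ∘ σ⁻¹`. -/
def S_EMB4 : Prop := ∀ (l : ℕ) [Fact l.Prime] (Q : Ideal ZB), Q.IsMaximal → (l : ZB) ∈ Q →
  (∃ ι : QB →+* PadicAlgCl l, EmbQ l Q ι) ∧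
  ∀ z : ℤ, (∀ y : QB, y ^ 2 = ((z : ℤ) : QB) → ∀ σ ∈ Dec Q, σ y = y) → IsSquare ((z : ℤ) : ℚ_[l])

/-- HD-5 (FRO). Frobenius elements. There is `φ ∈ Dec Q` with `φ x ≡ x ^ l` modulo `Q` for all `x`, and a
closed subgroup `S` which contains `φ` and `Ine Q` contains `Dec Q`. Proof. Existence: known in the library
(`Pool.Agent.W401.Cheb`, `TaskFrob`, or `Ideal.Quotient.stabilizerHom_surjective_of_profinite`, or
compactness); such `φ` is in `Dec Q`. Second part: let `δ ∈ Dec Q`. `k = ZB / Q` is algebraic over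
`ℤ / l`. For every finite set `F` of elements of `ZB` there is `m` with `δ x ≡ φ ^ m x` modulo `Q` for `x ∈ F`
(the images of the `x ∈ F` in `k` are in a finite subfield, whose group of units is cyclic, generated by `g`;
`δ` acts on it by an automorphism, which is a power of `x ↦ x ^ l`). The sets `S_F` of the `τ` in the closed
(hence compact) set `S ∩ Dec Q` with `δ x ≡ τ x` modulo `Q` for all `x ∈ F` are closed (the condition
depends only on the value `τ x`, and `τ ↦ τ x` is locally constant), not empty and directed, so there is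
`τ ∈ S ∩ Dec Q` with `δ x ≡ τ x` for all `x`. Then `τ⁻¹ δ ∈ Ine Q ⊆ S`, so `δ ∈ S`. (`Dec Q` is closed.) -/
def S_FRO : Prop := ∀ l : ℕ, l.Prime → ∀ Q : Ideal ZB, Q.IsMaximal → (l : ZB) ∈ Q →
  ∃ φ ∈ Dec Q, (∀ x : ZB, φ • x - x ^ l ∈ Q) ∧
    ∀ S : Subgroup GQ, IsClosed (S : Set GQ) → φ ∈ S → (∀ σ ∈ Ine Q, σ ∈ S) → ∀ σ ∈ Dec Q, σ ∈ S

/-- HD-6 (FRB). A cocycle which is a coboundary on the inertia group is a coboundary on the decomposition
group if `V` has no invariants under the decomposition group. Proof. Subtract the coboundary of `y₀`: the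
cocycle `d σ = c σ - (σ y₀ - y₀)` is zero on `I = Ine Q` (a normal subgroup of `Dec Q`). Let `φ` be as in
`S_FRO`. For `τ ∈ I`: `φ⁻¹ τ φ ∈ I`, `d (τ φ) = d τ + τ (d φ) = τ (d φ)` and
`d (τ φ) = d (φ (φ⁻¹ τ φ)) = d φ + φ (d (φ⁻¹ τ φ)) = d φ`; so `d φ` is in the space `V^I` of the invariants of
`I`. `φ` maps `V^I` to `V^I`. If `v ∈ V^I` and `φ v = v`, the stabilizer of `v` is a closed subgroup (continuity of
`ρ`) which contains `φ` and `I`, so `v` is invariant under `Dec Q` and `v = 0`. So `φ - 1` is injective on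
the finite dimensional space `V^I`, hence surjective: `d φ = φ y₁ - y₁` with `y₁ ∈ V^I`. The zero set of the
cocycle `d σ - (σ y₁ - y₁)` is a closed subgroup of `GQ` which contains `φ` and `I`, hence `Dec Q`. Take
`y = y₀ + y₁`. -/
def S_FRB : Prop := S_FRO → ∀ ρ : Rep, Continuous ρ → ∀ l : ℕ, l.Prime → ∀ Q : Ideal ZB,
  Q.IsMaximal → (l : ZB) ∈ Q → (∀ v : V2, (∀ σ ∈ Dec Q, act ρ σ v = v) → v = 0) →
  ∀ c : GQ → V2, Continuous c → (∀ σ τ, c (σ * τ) = c σ + act ρ σ (c τ)) →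
  (∃ y : V2, ∀ σ ∈ Ine Q, c σ = act ρ σ y - y) → ∃ y : V2, ∀ σ ∈ Dec Q, c σ = act ρ σ y - y

/-! ### Classes modulo squares -/

/-- the integers `x j` are the classes modulo squares of the homomorphisms `L j ∘ c` modulo `2` on the set
`H` -/
def Cls (L : Fin 3 → Fin 2 → ZMod 2) (c : GQ → T2) (x : Fin 3 → ℤ) (H : Set GQ) : Prop :=
  (∀ j, x j ≠ 0) ∧ ∀ j, ∀ σ ∈ H, ∀ y : QB, y ^ 2 = ((x j : ℤ) : QB) → (σ y = y ↔ pr (L j) (c σ) = 0)

/-- HD-7 (TC). The class of the coboundary `u σ = (ρ σ t - t) / 2`: it is the image of a point of order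
one or two. Proof. If all `t k` are divisible by `2`, `t = 2 t'`, then `u σ = ρ σ t' - t' ∈ 2 T` by `Dat.two`;
take `x = 1` (`Pt_one`). Else there is a unique `i` with `L i t = 0` (the `L j` are the three nonzero linear
forms on `(ZMod 2) ^ 2` and `t` modulo `2` is not zero); take `x j = b i - b j` for `j ≠ i` and
`x i = (b i - b j) (b i - b k)`, `{i, j, k} = {0, 1, 2}`. For `j ≠ i` the class is given by `Dat.kum`. The sum of
the three forms is zero, so `L i (u σ) = L j (u σ) + L k (u σ)`, and `σ` fixes the product of the square roots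
of `x j` and `x k` iff it fixes both or none. `LocJ` for `x`: `Q182.JQ.ELL.Pt_tor` with `e = b` and
`Q182.JQ.ELL.pt_LocJ`. -/
def S_TC : Prop := ∀ (b : Fin 3 → ℤ) (ρ : Rep) (L : Fin 3 → Fin 2 → ZMod 2), Function.Injective b →
  Dat b ρ L → ∀ (t : T2) (u : GQ → T2), (∀ σ, ρ σ *ᵥ t = t + (2 : ℤ_[2]) • u σ) →
  ∃ x : Fin 3 → ℤ, Cls L u x Set.univ ∧ ∀ (K : Type) [Field K] [CharZero K], H3 K → LocJ K b x

/-- integral Selmer cocycles -/
def IsI (ρ : Rep) (w : Ideal ZB) (f : T2) (c : GQ → T2) : Prop := IsSel ρ w f fun σ => toV (c σ)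

/-- the data of the local jobs -/
structure Loc (b : Fin 3 → ℤ) (ρ : Rep) (w : Ideal ZB) (f : T2) (L : Fin 3 → Fin 2 → ZMod 2)
    (c : GQ → T2) (x : Fin 3 → ℤ) : Prop where
  inj : Function.Injective b
  def_ : Defm b ρ w f
  dat : Dat b ρ L
  sel : IsI ρ w f c
  sqf : ∀ j, Squarefree (x j)
  cls : Cls L c x Set.univ

/-- HD-8 (REAL). The real place. Proof. Choose an embedding `ι : QB → ℂ`; complex conjugation induces
`τ ∈ GQ`, `ι (τ x) = conj (ι x)` (`QB` is normal over `ℚ`), `τ * τ = 1`. For the integral cocycle `c`: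
`0 = c 1 = c (τ τ) = c τ + ρ τ (c τ)`. Let `t = - c τ`; then `ρ τ t - t = 2 c τ`. Let `u`, `x'` be as in `S_TC` for
`t` (`u` exists by `Dat.two`; `u τ = c τ`). So for all `j` the automorphism `τ` fixes the square roots of
`x j * x' j`, that is `ι` of it is real, so `x j * x' j > 0` (if negative, the square root is purely imaginary
and moved) is a square in `ℝ`. `LG.congr` gives `LocJ ℝ b x` from `LocJ ℝ b x'`. -/
def S_REAL : Prop := S_TC → ∀ (b : Fin 3 → ℤ) (ρ : Rep) (w : Ideal ZB) (f : T2)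
  (L : Fin 3 → Fin 2 → ZMod 2) (c : GQ → T2) (x : Fin 3 → ℤ), Loc b ρ w f L c x → LocJ ℝ b x

/-- HD-9 (GPT). At a prime `l > 2` of good reduction all unit classes are in the local image. Proof. Let
`e i` be `b i` modulo `l`, three different elements of `F = ZMod l`, and `E` the elliptic curve
`y ^ 2 = ∏ (x - e i)` over `F`, a finite group `G = E(F)` of points. The map which sends the point `(x, y)`,
`y ≠ 0`, to the classes of the `x - e i` modulo squares (and `O ↦ 1`, `(e i, 0) ↦` the class with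
`e i - e j` at `j ≠ i` and the product of these at `i`) is a homomorphism `G → {(s 0, s 1, s 2) | s i = ± 1,
s 0 s 1 s 2 = 1}` (four elements) with the kernel `2 G`. Since `G[2]` has four elements, `G / 2 G` has four
elements, and the map is surjective. So there is a point with the classes of the `d i`. If it is `(x, y)`
with `y ≠ 0`, lift `x` to `X ∈ ℤ_l`: `X - b i` is a unit in the class of `d i`, and the product is a square:
`pt_LocJ`. If it is `O`: `Pt_one`; if it is `(e i, 0)`: `Pt_tor` over `ℚ_l` and `LG.congr`.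
Alternative proof without the group: the number of the solutions `(z 0, z 1, z 2)` in `F` of
`d 0 z 0 ^ 2 - d 1 z 1 ^ 2 = e 1 - e 0`, `d 0 z 0 ^ 2 - d 2 z 2 ^ 2 = e 2 - e 0`; or by counting: the sum over the four
classes `d` (with `d 0 d 1 d 2` a square) of the number `N d` of the points `(x, y)` of `G` with `y ≠ 0` in the class,
and `N d + (torsion points in the class) = #G / 4` for all `d`, which is the statement about the group. The
2-descent homomorphism over a general field is in several libraries (for instance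
`Pool/Agent/Y723`, `Pool/Agent/W307`, search for `descent`). -/
def S_GPT : Prop := ∀ (l : ℕ) [Fact l.Prime], l ≠ 2 → ∀ b d : Fin 3 → ℤ, ¬ (l : ℤ) ∣ dd b →
  (∀ j, ¬ (l : ℤ) ∣ d j) → IsSquare ((d 0 * d 1 * d 2 : ℤ) : ℚ_[l]) → LocJ ℚ_[l] b d

/-- HD-10 (GOOD). The odd primes of good reduction. Proof. Let `Q` be a maximal ideal above `l` (exists).
By `Defm.unr` `ρ` is trivial on `Ine Q` (`2 dd b` is prime to `l`, so not in `Q`), so `c σ = 0` for
`σ ∈ Ine Q` by `IsSel.ine`. If `l ∣ x j`, then `x j` (squarefree) has valuation one and there is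
`σ ∈ Ine Q` which moves its square roots (`S_RAM` with `K = ℚ`), contradiction to `Cls`. So the `x j` are
not divisible by `l`. The product `x 0 x 1 x 2` is a square in `ℚ` since its square root is fixed by all `σ`
(the sum of the forms `L j` is zero). Apply `S_GPT`. -/
def S_GOOD : Prop := S_GPT → ∀ (b : Fin 3 → ℤ) (ρ : Rep) (w : Ideal ZB) (f : T2)
  (L : Fin 3 → Fin 2 → ZMod 2) (c : GQ → T2) (x : Fin 3 → ℤ), Loc b ρ w f L c x →
  ∀ (l : ℕ) [Fact l.Prime], l ≠ 2 → ¬ (l : ℤ) ∣ dd b → LocJ ℚ_[l] b x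

/-- HD-11 (NPL). The odd primes `l` without points of order `4` over `ℚ_l`. Proof. Let `Q` be a maximal ideal
above `l`.
(1) `V` has no invariants under `Dec Q`: an invariant vector `v ≠ 0` can be multiplied by a power of `2` so
that it comes from `t ∈ T`, not in `2 T`, with `ρ σ t = t`, `σ ∈ Dec Q`; let `i` be the index with `L i t = 0`. By
`Dat.kum` with `u = 0` all `σ ∈ Dec Q` fix the square roots of `b i - b j` for both `j ≠ i`; by `S_EMB4` (b) both
are squares in `ℚ_l`, contradiction to `NoFour`.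
(2) By `S_FRB` there is `y ∈ V` with `c σ = σ y - y` for `σ ∈ Dec Q`. Claim: `2 y ∈ T`. Else let `n ≥ 2` be minimal
with `2 ^ n y ∈ T`, `t = 2 ^ n y`, not in `2 T`; for `σ ∈ Dec Q`: `ρ σ t = t + 2 u` with `u = 2 ^ (n - 1) c σ ∈ 2 T`;
by `Dat.kum` again all `σ ∈ Dec Q` fix the square roots of `b i - b j`, `j ≠ i`, where `L i t = 0`, a
contradiction as in (1).
(3) With `t = 2 y`: `ρ σ t = t + 2 c σ` for `σ ∈ Dec Q`. Let `x'` be as in `S_TC` for `t`. Then all `σ ∈ Dec Q` fix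
the square roots of `x j * x' j`, so these are squares in `ℚ_l`, and `LG.congr` gives the claim. -/
def S_NPL : Prop := S_EMB4 → S_FRO → S_FRB → S_TC → ∀ (b : Fin 3 → ℤ) (ρ : Rep) (w : Ideal ZB)
  (f : T2) (L : Fin 3 → Fin 2 → ZMod 2) (c : GQ → T2) (x : Fin 3 → ℤ), Loc b ρ w f L c x →
  ∀ (l : ℕ) [Fact l.Prime], l ≠ 2 → NoFour b l → LocJ ℚ_[l] b x

/-! ### Primes of multiplicative reduction -/

/-- HD-12 (SPT). Local points at an odd prime `l` which divides exactly one difference `b i - b j`, exactly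
once. Let `s = b i - b k`, a unit. Proof. By `LG.mul`, `LG.congr` it is enough to find generators.
(a) The class `(ε, ε, 1)` at `(i, j, k)` for one nonsquare unit `ε`: put `x = b i + X` with a unit `X`, then
`x - b j ≡ X` modulo `l` and `x - b k = X + s`. If `- s` is not a square take `X = - s + l ^ 2`: `X` is a nonsquare
unit, `X + s = l ^ 2` is a square. If `- s` is a square let `n ≥ 2` be the smallest positive integer which is
not a square modulo `l` and `X = - s n`: it is not a square, and `X + s = (- s) (n - 1)` is a unit and a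
square. In both cases `X (x - b j) (x - b k)` is a square, which gives the point (`pt_LocJ`).
(b) If `s` is a square: `Pt_tor` for the index `i` has the classes `b i - b j` at `j`, `b i - b k = s ~ 1` at `k` and
`(b i - b j) (b i - b k) ~ b i - b j` at `i`, a class `(r, r, 1)` with `r` of valuation one.
If `d i` has even valuation it is modulo squares `1` or `ε`, and `d` is `1` (`LG.one`) or (a). If it has
odd valuation, `s` is a square and `d i * r` has even valuation: product of (b) and the first case. -/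
def S_SPT : Prop := ∀ (l : ℕ) [Fact l.Prime], l ≠ 2 → ∀ b : Fin 3 → ℤ, Function.Injective b →
  ∀ i j k : Fin 3, i ≠ j → i ≠ k → j ≠ k → (l : ℤ) ∣ b i - b j → ¬ (l : ℤ) ^ 2 ∣ b i - b j →
  ¬ (l : ℤ) ∣ b i - b k → ¬ (l : ℤ) ∣ b j - b k → ∀ d : Fin 3 → ℤ, (∀ j, d j ≠ 0) →
  IsSquare ((d k : ℤ) : ℚ_[l]) → IsSquare ((d i * d j : ℤ) : ℚ_[l]) →
  (Even (padicValInt l (d i)) ∨ IsSquare ((b i - b k : ℤ) : ℚ_[l])) → LocJ ℚ_[l] b d

/-- what is known about `ρ` at a prime `Q` above an odd prime `l` of multiplicative reduction, `g` the linear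
form of `Mult` -/
structure Spc (b : Fin 3 → ℤ) (ρ : Rep) (L : Fin 3 → Fin 2 → ZMod 2) (l : ℕ) (Q : Ideal ZB)
    (g : T2) (i j k : Fin 3) : Prop where
  ij : i ≠ j
  ik : i ≠ k
  jk : j ≠ k
  dij : (l : ℤ) ∣ b i - b j
  sij : ¬ (l : ℤ) ^ 2 ∣ b i - b j
  dik : ¬ (l : ℤ) ∣ b i - b k
  djk : ¬ (l : ℤ) ∣ b j - b k
  quo : ∀ σ ∈ Dec Q, ∃ ψ : ℤ_[2], Quo ρ g σ ψ
  red : ∀ t : T2, (2 : ℤ_[2]) ∣ g ⬝ᵥ t ↔ pr (L k) t = 0
  ine : ∀ σ ∈ Ine Q, ∀ v : V2, lf g v = 0 → act ρ σ v = v
  inv : ∀ v : V2, (∀ σ ∈ Dec Q, act ρ σ v = v) → v = 0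
  half : ∀ y : V2, (∀ σ ∈ Ine Q, ∃ t : T2, act ρ σ y - y = toV t) →
    ∃ z : ℤ_[2], 2 * lf g y = ((z : ℤ_[2]) : ℚ_[2])

/-- HD-13 (SPA). Proof. `l` divides exactly one of the three differences, exactly once; call it
`b i - b j`, `k` the third index. Let `g` be the form of `Mult`.
(1) There is `τ ∈ Ine Q` which moves the square roots of `b i - b j` (`S_RAM` with `K = ℚ`), and it fixes the
square roots of the units `b i - b k`, `b j - b k` (if `y ^ 2 = z` with `l ∤ z` and `τ ∈ Ine Q`, `τ y = -y`, then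
`τ y - y = -2 y ∈ Q`, so `4 z ∈ Q`, a contradiction).
(2) `red`: choose `t ∉ 2 T` with `L i t = 0` and `u` with `ρ τ t = t + 2 u`. By `Dat.kum` `L j u = 1` and
`L k u = 0`. Since `g (ρ τ t) = g t` we get `g u = 0`. So `u` modulo `2` is not zero and is killed by `L k` and by `g`
modulo `2`, which is a nonzero form (`Quo`: a coefficient is a unit); so `g` modulo `2` is `L k`.
(3) `quo`, last part: for `σ ∈ Dec Q`, `t` as in (2), `ρ σ t = t + 2 u`: `2 g u = (ψ - 1) g t`, and `g t` is a unit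
since `L k t ≠ 0`. If `ψ = 1` then `g u = 0`, `L k u = 0` and `σ` fixes the square roots of `b i - b k` by
`Dat.kum`. If `ψ = -1` then `g u = - g t` is a unit, `L k u = 1` and `σ` moves them.
(4) For `σ ∈ Ine Q`: `det (ρ σ) = 1` (from `Cyc`: `σ` fixes the roots of unity of order `2 ^ n`, since
different ones are different modulo `Q` : `ζ - 1`, `ζ ≠ 1`, divides a power of two in the algebraic
integers; so for a primitive `2 ^ n`-th root and a natural number `m` with `2 ^ n ∣ det (ρ σ) - m` one has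
`ζ = ζ ^ m`, `2 ^ n ∣ m - 1`, and `2 ^ n ∣ det (ρ σ) - 1` for all `n`). In a basis adapted to the kernel of `g`,
`ρ σ` is upper triangular with the entry `ψ = 1` on the quotient and `det = 1`, so it acts trivially on the
kernel of `g` in `V`: `ine`.
(5) `inv`: let `v` be invariant under `Dec Q`. `ρ τ - 1` is not zero (`u ≠ 0` in (2)), zero on the kernel of
`g`, so its kernel in `V` is the kernel of `g`; so `g v = 0`. Let `φ ∈ Dec Q` be the Frobenius element of
`S_FRO`; as in (4) `φ ζ = ζ ^ l` for the `2 ^ n`-th roots of unity and `det (ρ φ) = l`. It acts on the kernel of `g`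
by `l / ψ = l ψ` with `ψ = ± 1`, and `l ψ ≠ 1`. So `v = 0`. -/
def S_SPA : Prop := S_FRO → ∀ (b : Fin 3 → ℤ) (ρ : Rep) (w : Ideal ZB) (f : T2)
  (L : Fin 3 → Fin 2 → ZMod 2), Function.Injective b → Defm b ρ w f → Dat b ρ L →
  ∀ l : ℕ, l.Prime → l ≠ 2 → (l : ℤ) ∣ dd b → ¬ (l : ℤ) ^ 2 ∣ dd b →
  ∀ Q : Ideal ZB, Q.IsMaximal → (l : ZB) ∈ Q → ∃ (g : T2) (i j k : Fin 3), Spc b ρ L l Q g i j k

/-- HD-14 (SPL). The odd primes of multiplicative reduction. Proof. Let `Q` be a maximal ideal above `l`,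
`g, i, j, k` as in `S_SPA`, `s = b i - b k`. By `Spc.inv` and `S_FRB` there is `y ∈ V` with `c σ = σ y - y` for
`σ ∈ Dec Q`.
Case A: `ψ = 1` for all `σ ∈ Dec Q`. Then all `σ ∈ Dec Q` fix the square roots of `s`, and `s` is a square in
`ℚ_l` (`S_EMB4` (b)). `g (c σ) = (ψ - 1) g y = 0`, so `L k (c σ) = 0` (`Spc.red`), so `x k` is a square in `ℚ_l`;
`L i (c σ) = L j (c σ)` (the sum of the three forms is zero), so `x i * x j` is a square. Apply `S_SPT`.
Case B: there is `σ₁ ∈ Dec Q` with `ψ = -1`. Then `g (c σ₁) = -2 g y`, so `2 g y ∈ ℤ_2`. Choose `t ∈ T` with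
`g t = 2 g y` (`g` is surjective), `u σ = (ρ σ t - t) / 2` (`Dat.two`) and `x'` as in `S_TC`. Let
`c' σ = c σ - u σ`; on `Dec Q` it is the coboundary of `y' = y - t / 2`, and `g y' = 0`. So for `σ ∈ Dec Q`:
`g (c' σ) = (ψ - 1) g y' = 0` and `L k (c' σ) = 0`, and for `σ ∈ Ine Q` `c' σ = 0` (`Spc.ine`). So with
`z j = x j * x' j`: `z k` and `z i * z j` are squares in `ℚ_l`, and `z i` has even valuation at `l` (else some
`σ ∈ Ine Q` moves its square roots, `S_RAM`). `S_SPT` gives `LocJ` for `z`, `S_TC` for `x'`, and `LG.mul`,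
`LG.congr` give it for `x` (`z j * x' j = x j * (x' j) ^ 2`). -/
def S_SPL : Prop := S_EMB4 → S_FRO → S_FRB → S_TC → S_SPT → S_SPA → ∀ (b : Fin 3 → ℤ) (ρ : Rep)
  (w : Ideal ZB) (f : T2) (L : Fin 3 → Fin 2 → ZMod 2) (c : GQ → T2) (x : Fin 3 → ℤ),
  Loc b ρ w f L c x → ∀ (l : ℕ) [Fact l.Prime], l ≠ 2 → (l : ℤ) ∣ dd b → ¬ (l : ℤ) ^ 2 ∣ dd b →
  LocJ ℚ_[l] b x

/-! ### The prime 2 -/

/-- HD-15 (TPT). Local points at `2` (general version, 05:20 UTC). Let `{i, j, m} = {0, 1, 2}`,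
`δ = b i - b m`, not a square, `16 δ` divides `b i - b j`. Let `d m` and `d i * d j` be squares in `ℚ_2` and
let `d i` be modulo squares a norm `p ^ 2 - δ q ^ 2` from `ℚ_2(√δ)`. Proof. Put `x = b i + X`; the differences
`x - b i, x - b m, x - b j` are `X, X + δ, X + β`, `β = b i - b j`, `‖β‖ ≤ ‖16 δ‖`. If `q = 0` then `d i` is a
square: `Pt_one`. Else divide by `q ^ 2`: `d i` is in the class of `X = p ^ 2 - δ`, and we may assume `p ≠ 0`
(else replace `p` by a small number). `X + δ = p ^ 2`. If `‖X‖ ≥ ‖2 δ‖` then `‖β / X‖ ≤ 1 / 8`, `X + β` is in the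
class of `X` and `X (X + δ) (X + β)` is a square: a point (`pt_LocJ`). If `‖X‖ < ‖2 δ‖`, then
`p ^ 2 = δ (1 + X / δ)` with `‖X / δ‖ ≤ 1 / 4`, not `≤ 1 / 8` since `δ` is not a square, so
`1 + X / δ` is in the class of `5` and `δ = 5 γ ^ 2`. In this case `X / δ` has even valuation, so `d i` has even
valuation and its class is one of `1, 3, 5, 7 = -1`; take for `X` the product of `γ ^ 2` with
`1 / 16` (class `1`, `X + δ = 81 / 16 γ ^ 2`), `-1` (`X + δ = 4 γ ^ 2`), `11` (class `3`, `X + δ = 16 γ ^ 2`),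
`5 / 4` (class `5`, `X + δ = 25 / 4 γ ^ 2`); here `‖X‖ ≥ ‖γ ^ 2‖`. -/
def S_TPT : Prop := ∀ b : Fin 3 → ℤ, ∀ i j m : Fin 3, i ≠ j → i ≠ m → j ≠ m →
  Function.Injective b → Mid b m →
  ∀ d : Fin 3 → ℤ, (∀ j, d j ≠ 0) → IsSquare ((d m : ℤ) : ℚ_[2]) →
  IsSquare ((d i * d j : ℤ) : ℚ_[2]) →
  (∃ p q : ℚ_[2], p ^ 2 - ((b i - b m : ℤ) : ℚ_[2]) * q ^ 2 ≠ 0 ∧
    IsSquare (((d i : ℤ) : ℚ_[2]) * (p ^ 2 - ((b i - b m : ℤ) : ℚ_[2]) * q ^ 2))) →
  LocJ ℚ_[2] b d

/-- HD-16 (OBS). (General version, 05:20 UTC: `δ` instead of `5`.) The obstruction to lift a quadratic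
character of `ℚ_2` to a cocycle with values in `ℤ / 4` on which the Galois group acts by the character of
`ℚ_2(√-δ)`. Let `δ ∈ ℚ_2` be not a square, `A` a locally constant cocycle, `A (σ τ) = A σ + X σ A τ`, `X σ = 1`
if `σ √-δ = √-δ` and `-1` else, and let `u ∈ ℚ_2` be nonzero with `σ √u = √u` iff `A σ` is even. Then `u` is
modulo squares a norm from `ℚ_2(√δ)`. Proof. Write `i = √-1`, `√-δ = i √δ`, `v = √u`,
`w = √v` (`w ^ 4 = u`). Define `κ σ ∈ ℤ / 4` by `σ w = i ^ (κ σ) w`, `c σ = ± 1` by `σ i = i ^ (c σ)`, `ε σ ∈ ℤ / 2` by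
`σ √δ = (-1) ^ (ε σ) √δ`. Then `κ (σ τ) = κ σ + c σ κ τ`, `κ σ ≡ A σ` modulo `2` and `X σ = c σ (-1) ^ (ε σ)`.
Put `2 g σ = A σ - κ σ` (`g σ ∈ ℤ / 2`) and let `a σ` be `A σ` modulo `2`. Computation:
`g (σ τ) = g σ + g τ + ε σ a τ`. Let `H = {σ | ε σ = 0}`, the group of the field `F = ℚ_2(√δ)`. `g` is a locally
constant homomorphism on `H`, so there is `α ∈ F`, `α ≠ 0`, with a square root `r` such that
`σ r = (-1) ^ (g σ) r` for `σ ∈ H` (Galois theory: the fixed field of the kernel is `F` or a quadratic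
extension of `F`). Choose `s` with `ε s = 1` (`δ` is not a square). For `h ∈ H`, `h' = s⁻¹ h s ∈ H`:
comparing `g (s h')` and `g (h s)` one gets `g h' = g h + a h`. Let `r' = s r`;
`h r' = s (h' r) = (-1) ^ (g h + a h) r'`. So `β = r r' v` is fixed by all `h ∈ H`. Moreover `s s ∈ H`,
`g (s s) = g s + g s + a s = a s`, so `s r' = (-1) ^ (a s) r` and `s v = (-1) ^ (a s) v`, hence
`s β = β` and `β ∈ ℚ_2`. `β ^ 2 = α (s α) u`, and `α (s α) = p ^ 2 - δ q ^ 2` for `α = p + q √δ`. -/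
def S_OBS : Prop := ∀ (u δ : ℚ_[2]) (A : Gal(PadicAlgCl 2/ℚ_[2]) → ZMod 4), u ≠ 0 → ¬ IsSquare δ →
  IsLocallyConstant A →
  (∀ σ τ : Gal(PadicAlgCl 2/ℚ_[2]), A (σ * τ) = A σ +
    (if ∀ y : PadicAlgCl 2, y ^ 2 = -algebraMap ℚ_[2] (PadicAlgCl 2) δ → σ y = y then 1 else -1) *
      A τ) →
  (∀ (σ : Gal(PadicAlgCl 2/ℚ_[2])) (y : PadicAlgCl 2),
    y ^ 2 = algebraMap ℚ_[2] (PadicAlgCl 2) u → (σ y = y ↔ (A σ).val % 2 = 0)) →
  ∃ p q : ℚ_[2], p ^ 2 - δ * q ^ 2 ≠ 0 ∧ IsSquare (u * (p ^ 2 - δ * q ^ 2))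

/-- HD-17 (TWA). (General version, 05:20 UTC.) The form `f` at `2` reduces modulo `2` to `L m`. Proof.
First, `f` modulo `2` is a nonzero linear form on `T / 2 T`, so it is `L n` for some `n`. Let `i ≠ n` and
`t ∉ 2 T` with `L i t = 0`; then `L n t = 1`, `f t` is a unit. For `σ ∈ Dec w`, `ρ σ t = t + 2 u`:
`2 f u = (ψ - 1) f t`. If `4 ∣ ψ - 1` then `f u` is even and `L n u = 0`, so `σ` fixes the square roots of
`b i - b n` (`Dat.kum`) and the square roots of `b k - b m`, `k ≠ m` (`Ord.quo`). Else `ψ - 1` is `2` times a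
unit (`ψ` is odd: `ρ σ` is invertible), `L n u = 1`, and `σ` moves both. So all `σ ∈ Dec w` fix the square
roots of `(b i - b n) (b k - b m)` for all `i ≠ n`, `k ≠ m`, which is a square in `ℚ_2` (`S_EMB4` (b)). If
`n ≠ m` then (`i = m`, `k = n`) `(b m - b n) (b n - b m)` is a square in `ℚ_2`, so `-1` is a square, a
contradiction. So `n = m`. -/
def S_TWA : Prop := S_EMB4 → ∀ (b : Fin 3 → ℤ) (ρ : Rep) (w : Ideal ZB) (f : T2)
  (L : Fin 3 → Fin 2 → ZMod 2), Function.Injective b → Defm b ρ w f → Dat b ρ L → ∀ m : Fin 3,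
  Mid b m → ∀ t : T2, (2 : ℤ_[2]) ∣ f ⬝ᵥ t ↔ pr (L m) t = 0

/-- HD-18 (TWO). (General version, 05:20 UTC.) The prime `2`. Proof. Let `m` be as in `AtTwo`, `i ≠ j` the
two other indices, `δ = b i - b m`, not a square in `ℚ_2`.
(1) There is `σ₁ ∈ Dec w` which moves the square roots of `δ` (`S_EMB4` (b)), so
`ψ ≢ 1` modulo `4` and `ψ - 1` is `2` times a unit. By `IsSel.two` there is `y ∈ V` with
`f (c σ) = (ψ - 1) f y` for `σ ∈ Dec w`; so `2 f y ∈ ℤ_2`. Choose `t ∈ T` with `f t = 2 f y`,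
`u σ = (ρ σ t - t) / 2` and `x'` as in `S_TC`, `c' σ = c σ - u σ`. For `σ ∈ Dec w`: `f (c' σ) = 0`. `c'` is a cocycle
with values in `T`.
(2) Let `z j = x j * x' j`. By `S_TWA` `L m (c' σ) = 0`, so `z m` is a square in `ℚ_2`; `z i * z j` is a square in
`ℚ_2` since `L i = L j` on the kernel of `L m`.
(3) The kernel of `f` in `T` is free of rank one with a generator `e` (`f = (f 0, f 1)` with a unit
coefficient, `e = (- f 1, f 0)`), and `L i e = 1`. For `σ ∈ Dec w`: `c' σ = a σ • e`, `ρ σ e = χ σ • e` with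
`χ σ ψ σ = det (ρ σ)`. So `a (σ τ) = a σ + χ σ a τ` on the group `Dec w`. Modulo `4`: `det (ρ σ)` is `1` iff `σ` fixes
the fourth roots of unity (`Cyc` with `n = 2`; it is `1` or `3`), `ψ σ` is `1` iff `σ` fixes the square roots
of `δ`; so `χ σ` is `1` modulo `4` iff `σ` fixes the square roots of `-δ`, and `-1` else.
(4) Let `ι` be the embedding of `S_EMB4` for `w`. For `τ ∈ Gal(PadicAlgCl 2/ℚ_2)` let `res τ ∈ Dec w` be the
restriction (unique, a continuous homomorphism), `A τ = a (res τ)` modulo `4`. Apply `S_OBS` with `u = z i`: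
`σ` fixes the square roots of `z i` iff `L i (c' σ) = a σ * L i e` is zero modulo `2`. So `z i` is modulo squares
a norm, `S_TPT` gives `LocJ` for `z`, `S_TC` for `x'`, and `LG.mul`, `LG.congr` give it for `x`. -/
def S_TWO : Prop := S_EMB4 → S_TC → S_TPT → S_OBS → S_TWA → ∀ (b : Fin 3 → ℤ) (ρ : Rep)
  (w : Ideal ZB) (f : T2) (L : Fin 3 → Fin 2 → ZMod 2) (c : GQ → T2) (x : Fin 3 → ℤ),
  Loc b ρ w f L c x → AtTwo b → LocJ ℚ_[2] b x

/-! ### Counting -/

/-- HD-19 (SIG). An element which acts by `-1` on `T / 4 T`. Proof. Let `q` be as in `Twisted`, `Q` a maximal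
ideal above `q`. `b i - b j = q (c i - c j)` with units `c i - c j`. By `S_RAM` (`K = ℚ`, `x = q`) there is
`σ ∈ Ine Q` which moves the square roots of `q`, and it fixes the square roots of the integers which are
not divisible by `q` (as in (1) of `S_SPA`), so it moves the square roots of all `b i - b j`, `i ≠ j`. Let
`t ∈ T`, not in `2 T`, `L i t = 0`, `ρ σ t = t + 2 u`: by `Dat.kum` `L j u = 1` for both `j ≠ i`, so `L i u = 0` (the sum of
the forms is zero) and `u` is not zero modulo `2`; the nonzero vector killed by `L i` is unique, so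
`u ≡ t` modulo `2` and `ρ σ t ≡ t + 2 t = 3 t ≡ - t` modulo `4`. So `4 ∣ ρ σ t + t` for all `t` not in `2 T`; apply to the
basis vectors. -/
def S_SIG : Prop := ∀ (b : Fin 3 → ℤ) (ρ : Rep) (L : Fin 3 → Fin 2 → ZMod 2), Function.Injective b →
  Twisted b → Dat b ρ L → ∃ σ : GQ, ∀ i j : Fin 2, (4 : ℤ_[2]) ∣ (ρ σ + 1) i j

/-- HD-20 (LNR). Independent integral cocycles. Proof. As in `Pool/Agent/Q274/BKC/Asm.lean` (`rank_le` and
the beginning of `gen`). `ρ σ₀ - 1 = - 2 (1 - 2 N)` is invertible on `V`. Let `W` be the space of the Selmer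
cocycles `c` with `c σ₀ = 0`. It maps onto `H1f`: for `c ∈ Sel` there is `y` with `σ₀ y - y = c σ₀`, and the
coboundary of `y` is a Selmer cocycle (continuity: `ρ` is continuous). So `r ≤ rank W`. Consider the elements
of `W` as functions on the compact space `GQ × Fin 2` with values in `ℚ_2` (an injective linear map
`(GQ → V2) → (GQ × Fin 2 → ℚ_2)`) and apply `BKC.S_LIN` (proved: `Pool.Agent.Q16.BKC.t_LIN`). The functions
obtained have norm `≤ 1`, so they come from functions with values in `T`. -/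
def S_LNR : Prop := ∀ (ρ : Rep) (w : Ideal ZB) (f : T2) (σ₀ : GQ) (r : ℕ), Continuous ρ →
  (∀ i j : Fin 2, (4 : ℤ_[2]) ∣ (ρ σ₀ + 1) i j) → (r : Cardinal) ≤ Module.rank ℚ_[2] (H1f ρ w f) →
  ∃ (c : Fin r → GQ → T2) (τ : Fin r → GQ) (k : Fin r → Fin 2), (∀ i, IsI ρ w f (c i)) ∧
    (∀ i, c i σ₀ = 0) ∧ ∀ i j, c i (τ j) (k j) = if i = j then 1 else 0

/-- HD-21 (CNT). Counting. Suppose every integral Selmer cocycle has classes in the finite set `S`. Proof.
For a subset `I` of `Fin r` and `t ∈ {0, 1} ^ 2 ⊂ T` let `C σ = ∑_{i ∈ I} c i σ + u_t σ`,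
`u_t σ = (ρ σ t - t) / 2`. It is an integral Selmer cocycle (`u_t` is the coboundary of `t / 2`). Let
`x(I, t) ∈ S` be its class. These `2 ^ r * 4` elements are different: if `x(I, t) = x(I', t')` then
`L j (C σ - C' σ) = 0` for all `j` and all `σ`, so `C σ ≡ C' σ` modulo `2`. At `σ₀`: `C σ₀ = u_t σ₀` and
`ρ σ₀ t = - t + 4 (..)`, so `u_t σ₀ ≡ - t ≡ t` modulo `2`; hence `t = t'`. Then at `τ j`, coordinate `k j`:
`j ∈ I` iff `j ∈ I'`. -/
def S_CNT : Prop := ∀ (b : Fin 3 → ℤ) (ρ : Rep) (w : Ideal ZB) (f : T2)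
  (L : Fin 3 → Fin 2 → ZMod 2) (σ₀ : GQ) (r : ℕ) (c : Fin r → GQ → T2) (τ : Fin r → GQ)
  (k : Fin r → Fin 2) (S : Set (Fin 3 → ℤ)), Dat b ρ L → Continuous ρ →
  (∀ i j : Fin 2, (4 : ℤ_[2]) ∣ (ρ σ₀ + 1) i j) → (∀ i, IsI ρ w f (c i)) → (∀ i, c i σ₀ = 0) →
  (∀ i j, c i (τ j) (k j) = if i = j then 1 else 0) → S.Finite →
  (∀ C : GQ → T2, IsI ρ w f C → ∃ x ∈ S, Cls L C x Set.univ) → 2 ^ (2 + r) ≤ S.ncard

/-- HD-22 (SLX). Every integral Selmer cocycle has classes in the 2-Selmer group. Proof. `L j ∘ c` modulo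
`2` is a locally constant homomorphism (`ρ σ ≡ 1` modulo `2` by `Dat.two`), so `S_QCH` gives squarefree
`x j` with `Cls`. All the local conditions are the previous jobs: for `l ≠ 2` use `AtOdd`: if `l ^ 2 ∤ dd b`
then `S_GOOD` or `S_SPL`, else `S_NPL`. -/
def S_SLX : Prop := S_EMB4 → S_FRO → S_FRB → S_TC → S_QCH → S_REAL → S_GPT → S_GOOD → S_NPL →
  S_SPT → S_SPA → S_SPL → S_TPT → S_OBS → S_TWA → S_TWO → ∀ (b : Fin 3 → ℤ) (ρ : Rep)
  (w : Ideal ZB) (f : T2) (L : Fin 3 → Fin 2 → ZMod 2), Function.Injective b → AtTwo b → AtOdd b →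
  Defm b ρ w f → Dat b ρ L → ∀ c : GQ → T2, IsI ρ w f c → ∃ x ∈ SelJ b, Cls L c x Set.univ

/-! ### The classes of the twists -/

/-- HD-23 (TWC). The conditions for the twist by `D'`. `a` are the roots of the fixed curve, `D' ` is
squarefree, `D'` and `D₀` are equal modulo squares in `ℚ_l` for `l ∈ S`, `2 ∈ S`; `q` is a prime divisor of
`D'` which does not divide `2 dd a`. Proof. `AtTwo (D' a)`: the differences are `D' (a i - a j)`, and
`D' D₀` is a square in `ℚ_2`. `AtOdd`: let `l ≠ 2` be a prime. If `l ∤ D'` and `l ^ 2 ∤ dd a` then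
`l ^ 2 ∤ dd (D' a) = D' ^ 3 dd a`. If `l ∤ D'` and `l ^ 2 ∣ dd a`: `l ∈ S` and `NoFour` for `D₀ a` at `l`; the
differences change by the square `D' D₀` (times `D₀ ^ 2`). If `l ∣ D'` (exactly once) and `l ∤ dd a`: all
differences `D' (a i - a j)` have valuation one, they are not squares: `NoFour`. If `l ∣ D'` and
`l ∣ dd a`, `l ^ 2 ∤ dd a`: exactly one difference `a i - a j` is divisible by `l`, exactly once; each index
occurs in a difference which is not divisible by `l`, and `D'` times it has valuation one: `NoFour`. If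
`l ∣ D'` and `l ^ 2 ∣ dd a`: as in the second case. `Twisted`: with the prime `q`, `b i = q (D' / q) a i` and
`dd ((D' / q) a) = (D' / q) ^ 3 dd a` is not divisible by `q`. -/
def S_TWC : Prop := ∀ (a : Fin 3 → ℤ) (D₀ D' : ℤ) (S : Finset ℕ) (q : ℕ), Function.Injective a →
  D₀ ≠ 0 → Squarefree D' → 2 ∈ S → (∀ (l : ℕ) [Fact l.Prime], l ∈ S →
    IsSquare ((D' * D₀ : ℤ) : ℚ_[l])) → AtTwo (fun i => D₀ * a i) →
  (∀ (l : ℕ) [Fact l.Prime], l ≠ 2 → ¬ (l : ℤ) ^ 2 ∣ dd a ∨ (l ∈ S ∧ NoFour (fun i => D₀ * a i) l)) →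
  q.Prime → (q : ℤ) ∣ D' → ¬ (q : ℤ) ∣ 2 * dd a →
  AtTwo (fun i => D' * a i) ∧ AtOdd (fun i => D' * a i) ∧ Twisted (fun i => D' * a i)

end Pool.Agent.Q274.HD
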