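import Pool.Agent.Q53.HD.TwoA
import Pool.Agent.Q206.HD.Bas

/-!
# Project HD, job TWO (proof of helper53, adapted to a general quadratic character)
-/

set_option autoImplicit false
set_option linter.unusedVariables false

namespace Pool.Agent.Q274.HD.TWO

open Pool.Agent.Q53.HD

open NumberField IsDedekindDomain
open Pool.Agent.Q274.HD
open Pool.Agent.Q274.BKC (GK OB Dec Ine)
open Pool.Agent.TH344.JG (LocJ)
open Pool.Agent.Q299.HD
open scoped Matrix

theorem two_others : ∀ m : Fin 3, ∃ i j : Fin 3, i ≠ j ∧ i ≠ m ∧ j ≠ m := by decide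

theorem third : ∀ i m : Fin 3, i ≠ m → ∃ j : Fin 3, j ≠ m ∧ i ≠ j := by decide

/-- the values of the quotient character are odd -/
theorem psi_odd {b : Fin 3 → ℤ} {ρ : Rep} {L : Fin 3 → Fin 2 → ZMod 2} (hD : Dat b ρ L) {f : T2}
    {σ : GQ} {ψ : ℤ_[2]} (h : Quo ρ f σ ψ) : (2 : ℤ_[2]) ∣ ψ - 1 := by
  obtain ⟨t, ht⟩ := lf_surj h.1 1
  obtain ⟨u, hu⟩ := hD.two σ t
  refine ⟨f ⬝ᵥ u, ?_⟩
  have h1 := h.2 t
  rw [hu, dotProduct_add, dotProduct_smul, smul_eq_mul, ht] at h1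
  linear_combination -h1

theorem unit_of {z : ℤ_[2]} (h : ¬ (2 : ℤ_[2]) ∣ z) : IsUnit z := by
  rw [PadicInt.isUnit_iff]
  by_contra hcon
  apply h
  have h3 : ‖z‖ < 1 := lt_of_le_of_ne (PadicInt.norm_le_one _) hcon
  have := (PadicInt.norm_lt_one_iff_dvd _).1 h3
  simpa using this

/-- the square roots are moved by a sign -/
theorem pmQ {y : QB} {n : ℤ} (hy : y ^ 2 = ((n : ℤ) : QB)) (σ : GQ) : σ y = y ∨ σ y = -y := by
  have h1 : (σ y) ^ 2 = y ^ 2 := by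
    rw [← map_pow, hy, map_intCast]
  exact sq_eq_sq_iff_eq_or_eq_neg.1 h1

/-- odd numbers modulo four -/
theorem odd4 {z : ℤ_[2]} (h2 : (2 : ℤ_[2]) ∣ z - 1) (h : ¬ (4 : ℤ_[2]) ∣ z - 1) : R4 z = -1 := by
  have h3 : R4 (z - 1) ≠ 0 := fun h3 => h ((R4_zero _).1 h3)
  have h4 : (R4 (z - 1)).val % 2 = 0 := by
    rw [← R4_mod]
    exact (Pool.Agent.Q206.HD.two_dvd_iff _).1 h2
  rw [map_sub, map_one] at h3 h4
  generalize R4 z = D at h3 h4 ⊢
  revert D
  decide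

theorem one4 {z : ℤ_[2]} (h : (4 : ℤ_[2]) ∣ z - 1) : R4 z = 1 := by
  rw [← R4_zero, map_sub, map_one, sub_eq_zero] at h
  exact h

theorem even_or_odd (z : ℤ_[2]) : (2 : ℤ_[2]) ∣ z ∨ (2 : ℤ_[2]) ∣ z - 1 := by
  rw [Pool.Agent.Q206.HD.two_dvd_iff, Pool.Agent.Q206.HD.two_dvd_iff, map_sub, map_one]
  generalize PadicInt.toZMod (p := 2) z = D
  revert D
  decide

/-- the determinant modulo four -/
theorem det4 {ρ : Rep} (hC : Cyc4 ρ) (σ : GQ) {y : QB} (hy : y ^ 2 = -1) :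
    (σ y = y ∧ R4 (ρ σ).det = 1) ∨ (σ y = -y ∧ R4 (ρ σ).det = -1) := by
  have h1 := hC σ y hy
  have hodd : (2 : ℤ_[2]) ∣ (ρ σ).det - 1 := by
    refine (even_or_odd _).resolve_left fun h => ?_
    have h2 : (ρ σ).det * (ρ σ⁻¹).det = 1 := by
      rw [← Matrix.det_mul, ← map_mul, mul_inv_cancel, map_one, Matrix.det_one]
    have h3 : (2 : ℤ_[2]) ∣ 1 := h2 ▸ h.mul_right _
    exact absurd h3 not_two_dvd_one
  have hpm : σ y = y ∨ σ y = -y := by
    have h2 : (σ y) ^ 2 = y ^ 2 := by rw [← map_pow, hy, map_neg, map_one]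
    exact sq_eq_sq_iff_eq_or_eq_neg.1 h2
  have hy0 : y ≠ 0 := by
    intro h
    rw [h] at hy
    norm_num at hy
  by_cases h : σ y = y
  · exact Or.inl ⟨h, one4 (h1.1 h)⟩
  · exact Or.inr ⟨hpm.resolve_left h, odd4 hodd fun h2 => h (h1.2 h2)⟩

/-- the quotient character modulo four -/
theorem psi4 {ψ : ℤ_[2]} (h2 : (2 : ℤ_[2]) ∣ ψ - 1) {σ : GQ} {y : QB} {n : ℤ}
    (hy : y ^ 2 = ((n : ℤ) : QB)) (h : σ y = y ↔ (4 : ℤ_[2]) ∣ ψ - 1) :
    (σ y = y ∧ R4 ψ = 1) ∨ (σ y = -y ∧ R4 ψ = -1) := by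
  by_cases h1 : σ y = y
  · exact Or.inl ⟨h1, one4 (h.1 h1)⟩
  · exact Or.inr ⟨(pmQ hy σ).resolve_left h1, odd4 h2 fun h3 => h1 (h.2 h3)⟩

/-- the form of a multiple -/
theorem pr_smul (l : Fin 2 → ZMod 2) (a : ℤ_[2]) (t : T2) :
    pr l (a • t) = PadicInt.toZMod (p := 2) a * pr l t := by
  simp only [pr, Pi.smul_apply, smul_eq_mul, map_mul, Finset.mul_sum]
  exact Finset.sum_congr rfl fun k _ => by ring

theorem two_forms1 : ∀ a b c d x y : ZMod 2, ¬ (a = 0 ∧ b = 0) → ¬ (c = 0 ∧ d = 0) →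
    ¬ (a = c ∧ b = d) → a * x + b * y = 0 → c * x + d * y = 0 → x = 0 ∧ y = 0 := by decide

/-- the generator of the kernel of one form is not killed by another one -/
theorem pr_ev_ne {l l' : Fin 2 → ZMod 2} (h1 : l ≠ 0) (h2 : l' ≠ 0) (h3 : l ≠ l') {t g : T2}
    (hg : g ⬝ᵥ t = 1) (h : pr l' t = 0) : pr l t ≠ 0 := by
  intro h4
  simp only [pr, Fin.sum_univ_two] at h h4
  have k1 : ¬ (l 0 = 0 ∧ l 1 = 0) := fun ⟨a, b⟩ => h1 (by
    funext k
    fin_cases k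
    · exact a
    · exact b)
  have k2 : ¬ (l' 0 = 0 ∧ l' 1 = 0) := fun ⟨a, b⟩ => h2 (by
    funext k
    fin_cases k
    · exact a
    · exact b)
  have k3 : ¬ (l 0 = l' 0 ∧ l 1 = l' 1) := fun ⟨a, b⟩ => h3 (by
    funext k
    fin_cases k
    · exact a
    · exact b)
  obtain ⟨e0, e1⟩ := two_forms1 _ _ _ _ _ _ k1 k2 k3 h4 h
  have h5 := congrArg (PadicInt.toZMod (p := 2)) hg
  rw [map_one] at h5
  simp only [dotProduct, Fin.sum_univ_two, map_add, map_mul, e0, e1, mul_zero, add_zero] at h5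
  exact absurd h5 (by decide)

theorem zm_mul_ne : ∀ a c : ZMod 2, c ≠ 0 → (a * c = 0 ↔ a = 0) := by decide

/-- continuity -/
theorem cont_dot {c : GQ → T2} (hc : Continuous fun σ => toV (c σ)) (g : T2) :
    Continuous fun σ => g ⬝ᵥ c σ := by
  have h1 : ∀ k, Continuous fun σ => c σ k := by
    intro k
    exact (PadicInt.isOpenEmbedding_coe (p := 2)).isInducing.continuous_iff.2
      ((continuous_apply k).comp hc)
  have h2 : (fun σ => g ⬝ᵥ c σ) = fun σ => g 0 * c σ 0 + g 1 * c σ 1 := by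
    funext σ
    simp only [dotProduct, Fin.sum_univ_two]
  rw [h2]
  exact (continuous_const.mul (h1 0)).add (continuous_const.mul (h1 1))

/-- HD-18 (TWO). -/
theorem t_TWO : S_TWO := by
  classical
  intro hEMB hTC hTPT hOBS hTWA b ρ w f L c x hL hAT
  obtain ⟨m, hm⟩ := hAT
  obtain ⟨i, j, hij, him, hjm⟩ := two_others m
  have hw2 : ((2 : ℕ) : ZB) ∈ w := by
    have := hL.def_.ord.two
    simpa using this
  obtain ⟨⟨ι, hι⟩, hemb⟩ := hEMB 2 w hL.def_.ord.max hw2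
  have hTW := hTWA hEMB b ρ w f L hL.inj hL.def_ hL.dat m hm
  have hquo := hL.def_.ord.quo
  have hfu : IsUnit (f 0) ∨ IsUnit (f 1) := by
    obtain ⟨ψ, hψ, -⟩ := hquo 1 (fun x => by rw [one_smul])
    exact hψ.1
  have hns : ¬ IsSquare ((b i - b m : ℤ) : ℚ_[2]) := (hm i j him hjm hij).1
  -- an element which moves the square roots of the difference
  obtain ⟨σ₁, hσ₁, y5, hy5, hne⟩ : ∃ σ ∈ Dec w, ∃ y : QB, y ^ 2 = ((b i - b m : ℤ) : QB) ∧
      σ y ≠ y := by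
    by_contra hcon
    push Not at hcon
    exact hns (hemb (b i - b m) fun y hy σ hσ => hcon σ hσ y hy)
  obtain ⟨ψ₁, hψ₁, h51⟩ := hquo σ₁ hσ₁
  obtain ⟨δ, hδ⟩ := psi_odd hL.dat hψ₁
  have hδu : IsUnit δ := unit_of fun h => by
    apply hne
    rw [h51 m i hm him y5 hy5, hδ]
    obtain ⟨k, hk⟩ := h
    exact ⟨k, by rw [hk]; ring⟩
  obtain ⟨r, hr⟩ := hδu.exists_right_inv
  obtain ⟨y, hy⟩ := hL.sel.two
  obtain ⟨t, ht⟩ := lf_surj hfu (r * (f ⬝ᵥ c σ₁))
  have hty : lf f (toV t) = 2 * lf f y := by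
    have h1 : ((f ⬝ᵥ c σ₁ : ℤ_[2]) : ℚ_[2]) = 2 * ((δ : ℤ_[2]) : ℚ_[2]) * lf f y := by
      rw [← lf_toV, show lf f (toV (c σ₁)) = lf f (act ρ σ₁ y - y) from hy σ₁ hσ₁, lf_sub,
        lf_act hψ₁]
      have h2 := congrArg (fun z : ℤ_[2] => (z : ℚ_[2])) hδ
      simp only [PadicInt.coe_sub, PadicInt.coe_mul, PadicInt.coe_one] at h2
      have h3 : ((2 : ℤ_[2]) : ℚ_[2]) = 2 := rfl
      rw [h3] at h2
      linear_combination (lf f y) * h2
    have h4 := congrArg (fun z : ℤ_[2] => (z : ℚ_[2])) hr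
    simp only [PadicInt.coe_mul, PadicInt.coe_one] at h4
    rw [lf_toV, ht, PadicInt.coe_mul, h1]
    linear_combination (2 * lf f y) * h4
  choose u hu using fun σ => hL.dat.two σ t
  obtain ⟨x', hx', hloc⟩ := hTC b ρ L hL.inj hL.dat t u hu
  have hx0 : ∀ m, x m ≠ 0 := hL.cls.1
  have hx'0 : ∀ m, x' m ≠ 0 := hx'.1
  have hz0 : ∀ m, x m * x' m ≠ 0 := fun m => mul_ne_zero (hx0 m) (hx'0 m)
  -- the difference
  have hfd : ∀ σ ∈ Dec w, f ⬝ᵥ (c σ - u σ) = 0 := by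
    intro σ hσ
    obtain ⟨ψ, hψ, -⟩ := hquo σ hσ
    rw [dotProduct_sub]
    apply Subtype.ext
    rw [PadicInt.coe_sub, ← lf_toV, ← lf_toV,
      show lf f (toV (c σ)) = lf f (act ρ σ y - y) from hy σ hσ, toV_half (hu σ), lf_sub, lf_sub,
      lf_act hψ, lf_act hψ, lf_smul, hty, PadicInt.coe_zero]
    ring
  obtain ⟨g, hg⟩ := dual_ev hfu
  set d : GQ → T2 := fun σ => c σ - u σ with hd
  have hda : ∀ σ ∈ Dec w, d σ = (g ⬝ᵥ d σ) • ev f := by
    intro σ hσ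
    obtain ⟨a, ha⟩ := ker_T hfu (hfd σ hσ)
    have h1 : g ⬝ᵥ d σ = a := by
      change g ⬝ᵥ (c σ - u σ) = a
      rw [ha, dotProduct_smul, hg, smul_eq_mul, mul_one]
    rw [h1]
    exact ha
  have hdc : ∀ σ τ, d (σ * τ) = d σ + ρ σ *ᵥ d τ := by
    intro σ τ
    have h1 : u (σ * τ) = u σ + ρ σ *ᵥ u τ := by
      apply two_inj
      have h2 := hu (σ * τ)
      rw [map_mul, ← Matrix.mulVec_mulVec, hu τ, Matrix.mulVec_add, hu σ, Matrix.mulVec_smul,
        add_assoc] at h2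
      have h3 := add_left_cancel h2
      rw [← h3, smul_add]
    simp only [hd]
    rw [coc_int hL.sel, h1, Matrix.mulVec_sub]
    abel
  have hχ : ∀ σ ∈ Dec w, ∃ χ : ℤ_[2], ρ σ *ᵥ ev f = χ • ev f := by
    intro σ hσ
    obtain ⟨ψ, hψ, -⟩ := hquo σ hσ
    apply ker_T hfu
    rw [hψ.2, dot_ev, mul_zero]
  -- the restriction
  choose res hres hres' using hι.res
  obtain ⟨hrm, hrc⟩ := res_cont hres'
  have hdcont : Continuous fun σ => toV (d σ) := by
    have h1 : (fun σ => toV (d σ)) = fun σ => toV (c σ) -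
        (act ρ σ ((1 / 2 : ℚ_[2]) • toV t) - (1 / 2 : ℚ_[2]) • toV t) := by
      funext σ
      rw [← toV_half (hu σ)]
      have h2 : toV (c σ) = toV (d σ) + toV (u σ) := by
        rw [← toV_add]
        congr 1
        simp [hd]
      rw [h2, add_sub_cancel_right]
    rw [h1]
    exact hL.sel.cont.sub ((Pool.Agent.Q206.HD.act_cont hL.def_.cont _).sub continuous_const)
  obtain ⟨yi, hyi⟩ : ∃ y : QB, y ^ 2 = -1 := IsAlgClosed.exists_pow_nat_eq (-1 : QB) (by norm_num)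
  have hyi0 : yi ≠ 0 := by
    intro h
    rw [h] at hyi
    norm_num at hyi
  have hbim : b i - b m ≠ 0 := fun h => him (hL.inj (sub_eq_zero.1 h))
  have hy50 : y5 ≠ 0 := root_ne hbim hy5
  have hne0 : yi * y5 ≠ 0 := mul_ne_zero hyi0 hy50
  have hnn : ∀ z : QB, z ≠ 0 → -z ≠ z := by
    intro z hz h
    apply hz
    have h3 : (2 : QB) * z = 0 := by linear_combination -h
    exact (mul_eq_zero.1 h3).resolve_left two_ne_zero
  have hcond : ∀ τ : G2, (∀ y : Om, y ^ 2 = -algebraMap ℚ_[2] Om ((b i - b m : ℤ) : ℚ_[2]) →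
      τ y = y) ↔ res τ (yi * y5) = yi * y5 := by
    intro τ
    have h1 : (ι (yi * y5)) ^ 2 = -algebraMap ℚ_[2] Om ((b i - b m : ℤ) : ℚ_[2]) := by
      rw [← map_pow, mul_pow, hyi, hy5, map_mul, map_neg, map_one, map_intCast, map_intCast]
      ring
    constructor
    · intro h
      apply ι.injective
      rw [← hres']
      exact h _ h1
    · intro h y hy
      rcases sq_eq_sq_iff_eq_or_eq_neg.1 (hy.trans h1.symm) with h2 | h2
      · rw [h2, hres', h]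
      · rw [h2, map_neg, hres', h]
  have hchi : ∀ (τ : G2) (χ : ℤ_[2]), ρ (res τ) *ᵥ ev f = χ • ev f →
      R4 χ = if ∀ y : Om, y ^ 2 = -algebraMap ℚ_[2] Om ((b i - b m : ℤ) : ℚ_[2]) → τ y = y
        then 1 else -1 := by
    intro τ χ h
    obtain ⟨ψ, hψ, h5⟩ := hquo (res τ) (hres τ)
    have h1 := det_mul hψ h
    have h2 := congrArg R4 h1
    rw [map_mul] at h2
    rcases det4 hL.def_.cyc (res τ) hyi with ⟨k1, k2⟩ | ⟨k1, k2⟩ <;>
      rcases psi4 (psi_odd hL.dat hψ) hy5 (h5 m i hm him y5 hy5) with ⟨k3, k4⟩ | ⟨k3, k4⟩ <;>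
      rw [k2, k4] at h2
    · rw [if_pos ((hcond τ).2 (by rw [map_mul, k1, k3]))]
      linear_combination -h2
    · rw [if_neg fun h3 => hnn _ hne0 (by
        have := (hcond τ).1 h3
        rw [map_mul, k1, k3] at this
        linear_combination this)]
      linear_combination h2
    · rw [if_neg fun h3 => hnn _ hne0 (by
        have := (hcond τ).1 h3
        rw [map_mul, k1, k3] at this
        linear_combination this)]
      linear_combination -h2
    · rw [if_pos ((hcond τ).2 (by rw [map_mul, k1, k3]; ring))]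
      linear_combination h2
  have hprm : pr (L m) (ev f) = 0 := by
    rw [← hTW, dot_ev]
    exact dvd_zero _
  have hpri : pr (L i) (ev f) ≠ 0 :=
    pr_ev_ne (hL.dat.ne i) (hL.dat.ne m) (fun h => him (hL.dat.inj h)) hg hprm
  -- the obstruction
  have heven := hOBS (((x i * x' i : ℤ) : ℤ) : ℚ_[2]) ((b i - b m : ℤ) : ℚ_[2])
    (fun τ => R4 (g ⬝ᵥ d (res τ))) (by exact_mod_cast hz0 i) hns (lc_R4 ((cont_dot hdcont g).comp hrc)) (by
      intro σ τ
      obtain ⟨χ, hχ'⟩ := hχ (res σ) (hres σ)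
      have h1 := hchi σ χ hχ'
      rw [← h1, ← map_mul, ← map_add]
      congr 1
      rw [hrm, hdc, dotProduct_add, hda (res τ) (hres τ), Matrix.mulVec_smul, hχ']
      simp only [dotProduct_smul, hg, smul_eq_mul]
      ring) (by
      intro τ y' hy'
      obtain ⟨y0, hy0⟩ := exists_root (x i * x' i)
      have h1 : (ι y0) ^ 2 = algebraMap ℚ_[2] Om (((x i * x' i : ℤ) : ℤ) : ℚ_[2]) := by
        rw [← map_pow, hy0, map_intCast, map_intCast]
      have h2 : τ y' = y' ↔ res τ y0 = y0 := by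
        have h3 : τ (ι y0) = ι y0 ↔ res τ y0 = y0 := by
          rw [hres']
          exact ι.injective.eq_iff
        rcases sq_eq_sq_iff_eq_or_eq_neg.1 (hy'.trans h1.symm) with h4 | h4
        · rw [h4, h3]
        · rw [h4, map_neg, neg_inj, h3]
      rw [h2, ← fx_iff hy0, cls_sub hL.cls hx', ← R4_mod]
      change pr (L i) (d (res τ)) = 0 ↔ _
      rw [hda (res τ) (hres τ), pr_smul, zm_mul_ne _ _ hpri, dotProduct_smul, hg, smul_eq_mul,
        mul_one])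
  have hk : ∀ σ ∈ Dec w, pr (L m) (c σ - u σ) = 0 := by
    intro σ hσ
    rw [← hTW, hfd σ hσ]
    exact dvd_zero _
  have hz : LocJ ℚ_[2] b fun m => x m * x' m := by
    refine hTPT b i j m hij him hjm hL.inj hm _ hz0 ?_ ?_ heven
    · refine hemb _ fun y' hy' σ hσ => ?_
      rw [← fx_iff hy', cls_sub hL.cls hx']
      exact hk σ hσ
    · refine hemb _ fun y' hy' σ hσ => ?_
      rw [← fx_iff hy', fx_mul (hz0 i) (hz0 j), cls_sub hL.cls hx', cls_sub hL.cls hx']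
      exact zm_sum _ _ _ (sum_ijk hL.dat (c σ - u σ) hij him hjm) (hk σ hσ)
  exact locJ_of hL.inj hx0 hx'0 hz (hloc ℚ_[2] (Q182.JQ.ELL.H3_padic 2))

end Pool.Agent.Q274.HD.TWO
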