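import Pool.Agent.Q274.HD.Law
import Pool.Agent.Q251.HD.QCH
import Pool.Agent.Q206.HD.EMB4
import Pool.Agent.Q206.HD.FRB
import Pool.Agent.Q206.HD.GOOD
import Pool.Agent.Q206.HD.SPT
import Pool.Agent.Q274.HD.TWA
import Pool.Agent.Q206.HD.SLX
import Pool.Agent.Q24.HD.FRO
import Pool.Agent.Q299.HD.TC
import Pool.Agent.Q299.HD.REAL
import Pool.Agent.Q299.HD.CNT
import Pool.Agent.Q53.HD.GPT
import Pool.Agent.Q53.HD.SPA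
import Pool.Agent.Q53.HD.SPL
import Pool.Agent.Q274.HD.OBS
import Pool.Agent.Q274.HD.TWO
import Pool.Agent.Q176.HD.NPL
import Pool.Agent.Q111.HD.TPT
import Pool.Agent.Q277.HD.SIG
import Pool.Agent.Q277.HD.LNR
import Pool.Agent.Q274.HD.TWC
import Pool.Agent.Q297.HD.HALF
import Pool.Agent.Q297.HD.EXT

/-!
# Assembly of the project HD
-/

set_option autoImplicit false

open scoped Classical

namespace Pool.Agent.Q274.HD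

theorem slx : C_SLX :=
  Pool.Agent.Q206.HD.t_SLX Pool.Agent.Q206.HD.t_EMB4 Pool.Agent.Q24.HD.t_FRO
    Pool.Agent.Q206.HD.t_FRB Pool.Agent.Q299.HD.t_TC Pool.Agent.Q251.HD.t_QCH
    Pool.Agent.Q299.HD.t_REAL Pool.Agent.Q53.HD.t_GPT Pool.Agent.Q206.HD.t_GOOD
    Pool.Agent.Q176.HD.t_NPL Pool.Agent.Q206.HD.t_SPT Pool.Agent.Q53.HD.t_SPA
    Pool.Agent.Q53.HD.t_SPL Pool.Agent.Q111.HD.t_TPT Pool.Agent.Q274.HD.OBS.t_OBS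
    Pool.Agent.Q274.HD.TWA.t_TWA Pool.Agent.Q274.HD.TWO.t_TWO

theorem ext : C_EXT := Pool.Agent.Q297.HD.t_EXT Pool.Agent.Q297.HD.t_HALF

theorem keyH : S_KEY :=
  key ext Pool.Agent.Q277.HD.SIG.t_SIG Pool.Agent.Q277.HD.LNR.t_LNR slx Pool.Agent.Q299.HD.t_CNT

section

open Finset Filter Topology

theorem lawH {κ μ : Type} [Fintype κ] [Fintype μ]
    (a : κ → Fin 3 → ℤ) (ha : ∀ k, Function.Injective (a k))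
    (hc : ∀ k, ∀ i j l, i ≠ j → i ≠ l → j ≠ l → ∀ s : ℤ,
      (a k i - a k j) * (a k i - a k l) ≠ s ^ 2)
    (p : κ → ℕ) (hp : ∀ k, (p k).Prime ∧ p k ≠ 2) (h1 : ∀ k, (p k : ℤ) ∣ dd (a k))
    (h2 : ∀ k, ¬ (p k : ℤ) ^ 2 ∣ ∏ l, dd (a l))
    (m : μ → ℕ) (hm : Function.Injective m) (hsqf : ∀ i, Squarefree (m i))
    (hloc : ∀ i, ∀ (l : ℕ) [Fact l.Prime], (l = 2 ∨ ∃ k, (l : ℤ) ∣ dd (a k)) →
      IsSquare ((m i : ℕ) : ℚ_[l]))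
    (S : Finset ℕ) (hS : ∀ k, p k ∉ S) (hS2 : 2 ∈ S)
    (D₀ : ℤ) (hD₀ : Squarefree D₀) (hpD : ∀ k, ¬ (p k : ℤ) ∣ D₀)
    (htwo : ∀ k, AtTwo fun j => D₀ * a k j)
    (hodd : ∀ k, ∀ (l : ℕ) [Fact l.Prime], l ≠ 2 →
      ¬ (l : ℤ) ^ 2 ∣ dd (a k) ∨ (l ∈ S ∧ NoFour (fun j => D₀ * a k j) l)) :
    (∃ c : ℝ, 0 < c ∧
      Tendsto (fun X : ℕ => ({D : ℤ | |D| ≤ X ∧ InCl p S D₀ D}.ncard : ℝ) / X) atTop (𝓝 c)) ∧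
    ∀ 𝒜 : Set (κ → μ → ℕ), ∀ ε : ℝ, 0 < ε → ∀ᶠ X : ℕ in atTop,
      ((∑' e : κ → μ → ℕ, if e ∈ 𝒜 then Q44.JQ.M.lawV e else 0) - ε) *
        ({D : ℤ | |D| ≤ X ∧ InCl p S D₀ D}.ncard : ℝ) ≤
        ({D : ℤ | (|D| ≤ X ∧ InCl p S D₀ D) ∧ ∃ e ∈ 𝒜, AllM a m D e}.ncard : ℝ) :=
  law keyH TWC.t_TWC a ha hc p hp h1 h2 m hm hsqf hloc S hS hS2 D₀ hD₀ hpD htwo hodd

end

end Pool.Agent.Q274.HD
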