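import Pool.Agent.Q274.HD.Stm2

/-!
# The key theorem from the jobs
-/

set_option autoImplicit false
set_option linter.unusedVariables false

namespace Pool.Agent.Q274.HD

open NumberField
open Pool.Agent.TH344.JG (LocJ SelJ)

/-- the conclusion of `S_SLX` -/
def C_SLX : Prop := ∀ (b : Fin 3 → ℤ) (ρ : Rep) (w : Ideal ZB) (f : T2)
  (L : Fin 3 → Fin 2 → ZMod 2), Function.Injective b → AtTwo b → AtOdd b →
  Defm b ρ w f → Dat b ρ L → ∀ c : GQ → T2, IsI ρ w f c → ∃ x ∈ SelJ b, Cls L c x Set.univ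

/-- the conclusion of `S_EXT` -/
def C_EXT : Prop := ∀ (b : Fin 3 → ℤ) (ρ : Rep), Function.Injective b → Congr b ρ →
  ∃ L : Fin 3 → Fin 2 → ZMod 2, Dat b ρ L

theorem key (h1 : C_EXT) (h2 : S_SIG) (h3 : S_LNR) (h4 : C_SLX) (h5 : S_CNT) : S_KEY := by
  intro b ρ w f e hb htwo hodd htw hd hfin hcard
  by_contra hcon
  rw [not_le] at hcon
  have hr : ((e + 1 : ℕ) : Cardinal) ≤ Module.rank ℚ_[2] (H1f ρ w f) := by
    rw [Nat.cast_add, Nat.cast_one]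
    exact Cardinal.natCast_add_one_le_iff.2 hcon
  obtain ⟨L, hL⟩ := h1 b ρ hb hd.congr
  obtain ⟨σ₀, hσ₀⟩ := h2 b ρ L hb htw hL
  obtain ⟨c, τ, k, hc, hc0, hck⟩ := h3 ρ w f σ₀ (e + 1) hd.cont hσ₀ hr
  have h := h5 b ρ w f L σ₀ (e + 1) c τ k (SelJ b) hL hd.cont hσ₀ hc hc0 hck hfin
    (h4 b ρ w f L hb htwo hodd hd hL)
  have h6 := h.trans hcard
  have h7 := (Nat.pow_le_pow_iff_right (by norm_num : 1 < 2)).1 h6
  omega

end Pool.Agent.Q274.HD
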