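import Pool.Agent.Q274.HD.Key
import Pool.Agent.Q44.JQ.M.Facts
import Pool.Agent.Q44.JQ.M.Out

/-!
# The joint law for the Bloch-Kato Selmer groups of all deformations
-/

set_option autoImplicit false
set_option linter.unusedVariables false
set_option linter.unusedSectionVars false

open scoped Classical Topology

namespace Pool.Agent.Q274.HD

open Finset Filter
open Pool.Agent.TH344.JG (LocJ SelJ PR df)
open Pool.Agent.Y723.PT (tw)
open Q44.JQ (mulS lawc)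
open Q44.JQ.W Q44.JQ.M

lemma prod_df (a : Fin 3 → ℤ) : ∏ x : PR 3, df a x = dd a := by
  have e : (univ.filter fun c : Fin 3 × Fin 3 => c.1 < c.2) = {(0, 1), (0, 2), (1, 2)} := by
    decide
  have h2 : ∏ x : PR 3, df a x = ∏ c ∈ (univ.filter fun c : Fin 3 × Fin 3 => c.1 < c.2),
      (a c.1 - a c.2) := by
    symm
    apply Finset.prod_subtype
    simp
  rw [h2, e]
  rw [Finset.prod_insert (by decide), Finset.prod_insert (by decide), Finset.prod_singleton]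
  unfold dd
  ring

/-- the dimension of the Selmer group is at most `e` for all the deformations of `E[4]`; for `e = 0` all
Selmer cocycles are coboundaries -/
def AllLe (b : Fin 3 → ℤ) (e : ℕ) : Prop := ∀ (ρ : Rep) (w : Ideal ZB) (f : T2), Defm b ρ w f →
  Module.rank ℚ_[2] (H1f ρ w f) ≤ (e : Cardinal) ∧
    (e = 0 → ∀ c : GQ → V2, IsSel ρ w f c → ∃ y : V2, ∀ σ, c σ = act ρ σ y - y)

lemma allLe_of (hkey : S_KEY) {b : Fin 3 → ℤ} {e : ℕ} (hb : Function.Injective b) (h1 : AtTwo b)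
    (h2 : AtOdd b) (h3 : Twisted b) (hfin : (SelJ b).Finite) (hcard : (SelJ b).ncard ≤ 2 ^ (2 + e)) :
    AllLe b e := by
  intro ρ w f hd
  have h := hkey b ρ w f e hb h1 h2 h3 hd hfin hcard
  refine ⟨h, fun he c hc => ?_⟩
  subst he
  rw [Nat.cast_zero, nonpos_iff_eq_zero, rank_zero_iff] at h
  have h4 : (Submodule.Quotient.mk (⟨c, hc⟩ : Sel ρ w f) : H1f ρ w f) = 0 := Subsingleton.elim _ _
  rw [Submodule.Quotient.mk_eq_zero] at h4
  exact h4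

/-- the bounds for all multipliers -/
def AllM {κ μ : Type} (a : κ → Fin 3 → ℤ) (m : μ → ℕ) (D : ℤ) (e : κ → μ → ℕ) : Prop :=
  ∀ k i, ∀ D' t : ℤ, Squarefree D' → D * m i = D' * t ^ 2 → AllLe (fun j => D' * a k j) (e k i)

/-- the class of `D₀` -/
def InCl {κ : Type} (p : κ → ℕ) (S : Finset ℕ) (D₀ D : ℤ) : Prop :=
  Squarefree D ∧ (∀ k, ¬ (p k : ℤ) ∣ D) ∧ 0 < D * D₀ ∧
    ∀ (l : ℕ) [Fact l.Prime], l ∈ S → IsSquare ((D * D₀ : ℤ) : ℚ_[l])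

theorem law (hkey : S_KEY) (htwc : S_TWC) {κ μ : Type} [Fintype κ] [Fintype μ]
    (a : κ → Fin 3 → ℤ) (ha : ∀ k, Function.Injective (a k))
    (hc : ∀ k, ∀ i j l, i ≠ j → i ≠ l → j ≠ l → ∀ s : ℤ,
      (a k i - a k j) * (a k i - a k l) ≠ s ^ 2)
    (p : κ → ℕ) (hp : ∀ k, (p k).Prime ∧ p k ≠ 2) (h1 : ∀ k, (p k : ℤ) ∣ dd (a k))
    (h2 : ∀ k, ¬ (p k : ℤ) ^ 2 ∣ ∏ l, dd (a l))
    (m : μ → ℕ) (hm : Function.Injective m) (hsqf : ∀ i, Squarefree (m i))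
    (hloc : ∀ i, ∀ (l : ℕ) [Fact l.Prime], (l = 2 ∨ ∃ k, (l : ℤ) ∣ dd (a k)) →
      IsSquare ((m i : ℕ) : ℚ_[l]))
    (S : Finset ℕ) (hS : ∀ k, p k ∉ S) (hS2 : 2 ∈ S)
    (D₀ : ℤ) (hD₀ : Squarefree D₀) (hpD : ∀ k, ¬ (p k : ℤ) ∣ D₀)
    (htwo : ∀ k, AtTwo fun j => D₀ * a k j)
    (hodd : ∀ k, ∀ (l : ℕ) [Fact l.Prime], l ≠ 2 →
      ¬ (l : ℤ) ^ 2 ∣ dd (a k) ∨ (l ∈ S ∧ NoFour (fun j => D₀ * a k j) l)) :
    (∃ c : ℝ, 0 < c ∧
      Tendsto (fun X : ℕ => ({D : ℤ | |D| ≤ X ∧ InCl p S D₀ D}.ncard : ℝ) / X) atTop (𝓝 c)) ∧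
    ∀ 𝒜 : Set (κ → μ → ℕ), ∀ ε : ℝ, 0 < ε → ∀ᶠ X : ℕ in atTop,
      ((∑' e : κ → μ → ℕ, if e ∈ 𝒜 then lawV e else 0) - ε) *
        ({D : ℤ | |D| ≤ X ∧ InCl p S D₀ D}.ncard : ℝ) ≤
        ({D : ℤ | (|D| ≤ X ∧ InCl p S D₀ D) ∧ ∃ e ∈ 𝒜, AllM a m D e}.ncard : ℝ) := by
  let E : Ex κ := Ex.mk (fun _ => 1) (fun _ => le_refl 1) a ha p hp
    (fun k => by rw [show (∏ x : PR (2 * 1 + 1), df (a k) x) = dd (a k) from prod_df (a k)]
                 exact h1 k)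
    (fun k => by
      rw [Finset.prod_congr rfl fun l _ =>
        (show (∏ x : PR (2 * 1 + 1), df (a l) x) = dd (a l) from prod_df (a l))]
      exact h2 k)
    (fun k => Or.inr ⟨rfl, hc k⟩)
  have hDD : E.DD = ∏ l, dd (a l) := Finset.prod_congr rfl fun l _ => prod_df (a l)
  have hM : Q44.JQ.M.Mult E m := by
    refine ⟨hm, hsqf, fun i l hl h => hloc i l ?_⟩
    rcases h with h | h
    · exact Or.inl h
    · right
      rw [hDD] at h
      have hP := Nat.prime_iff_prime_int.1 hl.out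
      obtain ⟨k, -, hk⟩ := hP.exists_mem_finset_dvd h
      exact ⟨k, hk⟩
  obtain ⟨dfn, g1, g2⟩ := jointM E S factsM hM hS
  have hC : ∀ D, InCl p S D₀ D ↔ Squarefree D ∧ E.Cond S D₀ D := fun D => Iff.rfl
  obtain ⟨c, hc0, h3, h4⟩ := g2 D₀ hD₀ hpD (InCl p S D₀) hC
  refine ⟨⟨c, hc0, h3.congr fun X => by rw [ncard_Icc]⟩, fun 𝒜 ε hε => ?_⟩
  obtain ⟨G, hG⟩ : ∃ G : ℤ → Prop, ∀ D, G D ↔ ∃ e ∈ 𝒜, AllM a m D e := ⟨_, fun _ => Iff.rfl⟩
  set N : ℤ := (2 * E.DD) * ∏ i, (m i : ℤ) with hN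
  have hN0 : N ≠ 0 := mul_ne_zero (mul_ne_zero two_ne_zero E.DD0) (prod_ne_zero_iff.2 fun i _ =>
    Int.natCast_ne_zero.2 (hM.sqf i).ne_zero)
  have key := low_of (J := κ × μ) (ℓ := lawM) lawM_nonneg hasSum_lawM.summable dfn
    (fun j => 2 * E.g j.1) (InCl p S D₀) hc0 h3 h4 {r | Function.curry r ∈ 𝒜} G N.natAbs ?_ ε hε
  · have e : (∑' r : κ × μ → ℕ, if r ∈ {r | Function.curry r ∈ 𝒜} then lawM r else 0) =
        ∑' e : κ → μ → ℕ, if e ∈ 𝒜 then lawV e else 0 := by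
      rw [← (Equiv.curry κ μ ℕ).tsum_eq]
      rfl
    rw [e] at key
    filter_upwards [key] with X hX
    rw [ncard_Icc]
    have e : {D : ℤ | (|D| ≤ X ∧ InCl p S D₀ D) ∧ ∃ e ∈ 𝒜, AllM a m D e} =
        {D : ℤ | |D| ≤ X ∧ (InCl p S D₀ D ∧ G D)} := by
      ext D
      rw [Set.mem_ofPred_eq, Set.mem_ofPred_eq, hG, and_assoc]
    rw [e]
    rw [ncard_Icc X (fun D => InCl p S D₀ D ∧ G D) (i := fun D => instDecidableAnd)]
    exact hX
  · rintro D hCD hb ⟨r, hr, hdd⟩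
    rw [hG]
    refine ⟨Function.curry r, hr, fun k i D' t hD' hDD' => ?_⟩
    obtain ⟨hD, hc1, hc2, hc3⟩ := hCD
    obtain ⟨c1, c2⟩ := g1 D hD hc1 k i D' t hD' hDD'
    rw [hdd (k, i)] at c2
    obtain ⟨q, hq, hqD, hqN⟩ := prime_part hN0 ((Finset.dvd_prod_of_mem
      (fun i => (m i : ℤ)) (mem_univ i)).mul_left _) hD hD' hDD' hb
    have hq2 : ¬ (q : ℤ) ∣ 2 * dd (a k) := by
      intro h
      apply hqN
      rw [hN]
      refine Dvd.dvd.mul_right (h.trans (mul_dvd_mul_left 2 ?_)) _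
      rw [hDD]
      exact Finset.dvd_prod_of_mem (fun l => dd (a l)) (mem_univ k)
    have ht0 : t ≠ 0 := by
      rintro rfl
      have h9 : D * (m i : ℤ) = 0 := by rw [hDD']; ring
      rcases mul_eq_zero.1 h9 with h | h
      · exact hD.ne_zero h
      · exact (hsqf i).ne_zero (by exact_mod_cast h)
    -- the primes of `S` that matter
    set S' : Finset ℕ := S.filter fun l => l = 2 ∨ (l : ℤ) ∣ dd (a k) with hS'
    have hsq : ∀ (l : ℕ) [Fact l.Prime], l ∈ S' → IsSquare ((D' * D₀ : ℤ) : ℚ_[l]) := by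
      intro l hl hlS
      rw [hS', mem_filter] at hlS
      have e1 := hc3 l hlS.1
      have e2 := hloc i l (hlS.2.imp id fun h => ⟨k, h⟩)
      have e3 : IsSquare (((D' * D₀ : ℤ) : ℚ_[l]) * ((t : ℤ) : ℚ_[l]) ^ 2) := by
        have e4 : ((D' * D₀ : ℤ) : ℚ_[l]) * ((t : ℤ) : ℚ_[l]) ^ 2 =
            ((D * D₀ : ℤ) : ℚ_[l]) * ((m i : ℕ) : ℚ_[l]) := by
          have e5 := congrArg (fun z : ℤ => (z : ℚ_[l])) hDD'
          push_cast at e5 ⊢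
          linear_combination (-(D₀ : ℚ_[l])) * e5
        rw [e4]
        exact e1.mul e2
      exact isSquare_of_mul_sq (Int.cast_ne_zero.2 ht0) e3
    obtain ⟨t1, t2, t3⟩ := htwc (a k) D₀ D' S' q (ha k) hD₀.ne_zero hD'
      (mem_filter.2 ⟨hS2, Or.inl rfl⟩) hsq (htwo k) (fun l hl hl2 => by
        by_cases h : (l : ℤ) ^ 2 ∣ dd (a k)
        · right
          obtain ⟨h5, h6⟩ := (hodd k l hl2).resolve_left (not_not.2 h)
          exact ⟨mem_filter.2 ⟨h5, Or.inr ((dvd_pow_self _ two_ne_zero).trans h)⟩, h6⟩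
        · exact Or.inl h) hq hqD hq2
    have hinj : Function.Injective fun j => D' * a k j := fun x y hxy =>
      ha k (mul_left_cancel₀ hD'.ne_zero hxy)
    exact allLe_of hkey hinj t1 t2 t3 c1 c2

end Pool.Agent.Q274.HD
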