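import Mathlib
import Pool.Agent.Q274.BKC.Stm
import Pool.Agent.TH344.JG.Stm

/-!
# Bloch-Kato Selmer groups of the 2-adic deformations of `E[4]`: definitions

`E` is an elliptic curve `y ^ 2 = (x - b 0) (x - b 1) (x - b 2)` with integers `b i`, for instance a
quadratic twist of a fixed curve. We consider the lattices `T = ℤ_2 ^ 2` with a continuous action `ρ` of
the absolute Galois group of `ℚ` such that `T / 4 T` is isomorphic to `E[4]`, which are ordinary at `2`,
for example the lattices of the members of the 2-adic Hida family of `E` (of all weights), twisted to be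
self-dual.
-/

set_option autoImplicit false
set_option linter.unusedVariables false

namespace Pool.Agent.Q274.HD

open NumberField
open Pool.Agent.Q274.BKC (GK OB Dec Ine)
open scoped Classical Matrix

/-- the algebraic numbers -/
abbrev QB : Type := AlgebraicClosure ℚ

/-- the absolute Galois group of `ℚ` -/
abbrev GQ : Type := GK ℚ

/-- the ring of all algebraic integers -/
abbrev ZB : Type := OB ℚ

/-- the lattice -/
abbrev T2 : Type := Fin 2 → ℤ_[2]

/-- the vector space -/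
abbrev V2 : Type := Fin 2 → ℚ_[2]

/-- 2-adic representations of dimension two (the values are invertible since `ρ` is multiplicative on a
group and `ρ 1 = 1`) -/
abbrev Rep : Type := GQ →* Matrix (Fin 2) (Fin 2) ℤ_[2]

/-- the vectors of the lattice as vectors -/
def toV (t : T2) : V2 := fun i => ((t i : ℤ_[2]) : ℚ_[2])

/-- the action of `σ` on the vector space -/
noncomputable def act (ρ : Rep) (σ : GQ) (v : V2) : V2 :=
  fun i => ∑ j, ((ρ σ i j : ℤ_[2]) : ℚ_[2]) * v j

/-- the linear form with the coefficients `f` -/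
noncomputable def lf (f : T2) (v : V2) : ℚ_[2] := ∑ i, ((f i : ℤ_[2]) : ℚ_[2]) * v i

/-! ### The elliptic curve -/

/-- the elliptic curve `y ^ 2 = (x - b 0) (x - b 1) (x - b 2)` -/
def curve (b : Fin 3 → ℤ) : WeierstrassCurve ℚ :=
  ⟨0, -(b 0 + b 1 + b 2), 0, b 0 * b 1 + b 0 * b 2 + b 1 * b 2, -(b 0 * b 1 * b 2)⟩

/-- the group of its points over the algebraic numbers -/
abbrev Pt (b : Fin 3 → ℤ) : Type := ((curve b).baseChange QB).toAffine.Point

/-- the action of the Galois group on the points -/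
noncomputable def gal (b : Fin 3 → ℤ) (σ : GQ) : Pt b →+ Pt b :=
  WeierstrassCurve.Affine.Point.map (W' := curve b) (S := ℚ) (AlgEquiv.toAlgHom σ)

/-- the product of the differences of the `b i` -/
def dd (b : Fin 3 → ℤ) : ℤ := (b 0 - b 1) * (b 0 - b 2) * (b 1 - b 2)

/-! ### The lattices -/

/-- `T / 4 T` is isomorphic to `E[4]`: there is an equivariant homomorphism `π` from `T` to the points
with the kernel `4 T` (its image is killed by `4` and has `16` elements) -/
def Congr (b : Fin 3 → ℤ) (ρ : Rep) : Prop :=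
  ∃ π : T2 →+ Pt b, (∀ σ t, π (ρ σ *ᵥ t) = gal b σ (π t)) ∧
    ∀ t, π t = 0 ↔ ∀ i, (4 : ℤ_[2]) ∣ t i

/-- the determinant of `ρ` is the cyclotomic character -/
def Cyc (ρ : Rep) : Prop :=
  ∀ (σ : GQ) (n m : ℕ) (ζ : QB), ζ ^ 2 ^ n = 1 → (2 ^ n : ℤ_[2]) ∣ (ρ σ).det - m → σ ζ = ζ ^ m

/-- the determinant of `ρ` is congruent to the cyclotomic character modulo `4` -/
def Cyc4 (ρ : Rep) : Prop :=
  ∀ (σ : GQ) (ζ : QB), ζ ^ 2 = -1 → (σ ζ = ζ ↔ (4 : ℤ_[2]) ∣ (ρ σ).det - 1)

/-- `ρ` is unramified at the primes which do not divide `2 dd b` -/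
def Unr (b : Fin 3 → ℤ) (ρ : Rep) : Prop :=
  ∀ Q : Ideal ZB, Q.IsMaximal → ((2 * dd b : ℤ) : ZB) ∉ Q → ∀ σ ∈ Ine Q, ρ σ = 1

/-- the linear form `t ↦ ∑ f i t i` is surjective, and `σ` acts on its values, that is on the
quotient of `T` by its kernel, by the multiplication by `ψ` -/
def Quo (ρ : Rep) (f : T2) (σ : GQ) (ψ : ℤ_[2]) : Prop :=
  (IsUnit (f 0) ∨ IsUnit (f 1)) ∧ ∀ t : T2, f ⬝ᵥ (ρ σ *ᵥ t) = ψ * (f ⬝ᵥ t)

/-- the differences `b i - b m`, `i ≠ m`, are not squares in `ℚ_2`, and the difference of the two other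
`b i` is divisible by `16` times them: the curve has a quadratic twist over `ℚ_2` with good ordinary or
multiplicative reduction, with the point `(b m, 0)` in the kernel of the reduction, and the Galois group
does not act trivially on the étale quotient of `E[4]` -/
def Mid (b : Fin 3 → ℤ) (m : Fin 3) : Prop :=
  ∀ i j : Fin 3, i ≠ m → j ≠ m → i ≠ j → ¬ IsSquare ((b i - b m : ℤ) : ℚ_[2]) ∧
    ‖((b i - b j : ℤ) : ℚ_[2])‖ ≤ ‖((16 * (b i - b m) : ℤ) : ℚ_[2])‖

/-- `ρ` is ordinary at the prime `w` above `2`, like `E[4]`: the decomposition group of `w` acts on the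
quotient of `T` by the kernel of the form `f` by a character which is modulo `4` the quadratic character
of `ℚ_2(√(b i - b m))`, the character on the étale quotient of `E[4]` -/
structure Ord (b : Fin 3 → ℤ) (ρ : Rep) (w : Ideal ZB) (f : T2) : Prop where
  max : w.IsMaximal
  two : (2 : ZB) ∈ w
  quo : ∀ σ ∈ Dec w, ∃ ψ : ℤ_[2], Quo ρ f σ ψ ∧ ∀ m i : Fin 3, Mid b m → i ≠ m →
    ∀ y : QB, y ^ 2 = ((b i - b m : ℤ) : QB) → (σ y = y ↔ (4 : ℤ_[2]) ∣ ψ - 1)

/-- at the odd primes `l` which divide `dd b` exactly once (these are primes of multiplicative reduction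
of the curve): for the primes `Q` above `l` the decomposition group acts on a quotient of `T` of rank one by
an unramified character, the determinant is unramified at `Q`, and the decomposition group does not act
trivially on the kernel of the quotient map (by the character `det / ψ`) -/
def Mult (b : Fin 3 → ℤ) (ρ : Rep) : Prop :=
  ∀ l : ℕ, l.Prime → l ≠ 2 → (l : ℤ) ∣ dd b → ¬ (l : ℤ) ^ 2 ∣ dd b →
  ∀ Q : Ideal ZB, Q.IsMaximal → (l : ZB) ∈ Q → ∃ f : T2,
    (∀ σ ∈ Dec Q, ∃ ψ : ℤ_[2], Quo ρ f σ ψ ∧ (σ ∈ Ine Q → ψ = 1 ∧ (ρ σ).det = 1)) ∧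
    ∃ σ ∈ Dec Q, ∃ ψ : ℤ_[2], Quo ρ f σ ψ ∧ (ρ σ).det ≠ ψ

/-- the ordinary 2-adic deformations of `E[4]` -/
structure Defm (b : Fin 3 → ℤ) (ρ : Rep) (w : Ideal ZB) (f : T2) : Prop where
  cont : Continuous ρ
  congr : Congr b ρ
  cyc : Cyc4 ρ
  unr : Unr b ρ
  ord : Ord b ρ w f
  mult : Mult b ρ

/-! ### The Selmer group -/

/-- the continuous cocycles which are coboundaries on the inertia groups outside `2` and, modulo the
kernel of `f`, on the decomposition group of `w` -/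
structure IsSel (ρ : Rep) (w : Ideal ZB) (f : T2) (c : GQ → V2) : Prop where
  cont : Continuous c
  coc : ∀ σ τ, c (σ * τ) = c σ + act ρ σ (c τ)
  ine : ∀ Q : Ideal ZB, Q.IsMaximal → (2 : ZB) ∉ Q → ∃ y : V2, ∀ σ ∈ Ine Q, c σ = act ρ σ y - y
  two : ∃ y : V2, ∀ σ ∈ Dec w, lf f (c σ) = lf f (act ρ σ y - y)

lemma act_add (ρ : Rep) (σ : GQ) (v v' : V2) : act ρ σ (v + v') = act ρ σ v + act ρ σ v' := by
  funext i
  simp only [act, Pi.add_apply, mul_add, Finset.sum_add_distrib]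

lemma act_smul (ρ : Rep) (σ : GQ) (k : ℚ_[2]) (v : V2) : act ρ σ (k • v) = k • act ρ σ v := by
  funext i
  simp only [act, Pi.smul_apply, smul_eq_mul, Finset.mul_sum]
  exact Finset.sum_congr rfl fun j _ => by ring

lemma lf_add (f : T2) (v v' : V2) : lf f (v + v') = lf f v + lf f v' := by
  simp only [lf, Pi.add_apply, mul_add, Finset.sum_add_distrib]

lemma lf_smul (f : T2) (k : ℚ_[2]) (v : V2) : lf f (k • v) = k * lf f v := by
  simp only [lf, Pi.smul_apply, smul_eq_mul, Finset.mul_sum]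
  exact Finset.sum_congr rfl fun j _ => by ring

/-- the Selmer cocycles -/
def Sel (ρ : Rep) (w : Ideal ZB) (f : T2) : Submodule ℚ_[2] (GQ → V2) where
  carrier := {c | IsSel ρ w f c}
  add_mem' := by
    rintro a b ha hb
    refine ⟨ha.cont.add hb.cont, fun σ τ => ?_, fun Q h1 h2 => ?_, ?_⟩
    · simp only [Pi.add_apply, ha.coc, hb.coc, act_add]
      abel
    · obtain ⟨y, hy⟩ := ha.ine Q h1 h2
      obtain ⟨z, hz⟩ := hb.ine Q h1 h2
      refine ⟨y + z, fun σ hσ => ?_⟩
      rw [Pi.add_apply, hy σ hσ, hz σ hσ, act_add]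
      abel
    · obtain ⟨y, hy⟩ := ha.two
      obtain ⟨z, hz⟩ := hb.two
      refine ⟨y + z, fun σ hσ => ?_⟩
      rw [Pi.add_apply, lf_add, hy σ hσ, hz σ hσ, act_add, ← lf_add]
      congr 1
      abel
  zero_mem' := by
    have h0 : ∀ σ, act ρ σ 0 = 0 := by
      intro σ
      funext i
      simp [act]
    refine ⟨continuous_const, fun σ τ => ?_, fun Q _ _ => ⟨0, fun σ _ => ?_⟩, ⟨0, fun σ _ => ?_⟩⟩
    · simp only [Pi.zero_apply, h0, add_zero]
    · rw [h0, sub_zero, Pi.zero_apply]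
    · rw [h0, sub_zero, Pi.zero_apply]
  smul_mem' := by
    rintro k a ha
    refine ⟨ha.cont.const_smul k, fun σ τ => ?_, fun Q h1 h2 => ?_, ?_⟩
    · simp only [Pi.smul_apply, ha.coc, act_smul, smul_add]
    · obtain ⟨y, hy⟩ := ha.ine Q h1 h2
      refine ⟨k • y, fun σ hσ => ?_⟩
      rw [Pi.smul_apply, hy σ hσ, act_smul, smul_sub]
    · obtain ⟨y, hy⟩ := ha.two
      refine ⟨k • y, fun σ hσ => ?_⟩
      rw [Pi.smul_apply, lf_smul, hy σ hσ, act_smul, ← smul_sub, lf_smul]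

/-- the coboundaries -/
def B1 (ρ : Rep) : Submodule ℚ_[2] (GQ → V2) where
  carrier := {c | ∃ y : V2, ∀ σ, c σ = act ρ σ y - y}
  add_mem' := by
    rintro a b ⟨y, hy⟩ ⟨z, hz⟩
    refine ⟨y + z, fun σ => ?_⟩
    rw [Pi.add_apply, hy σ, hz σ, act_add]
    abel
  zero_mem' := ⟨0, fun σ => by
    funext i
    simp [act]⟩
  smul_mem' := by
    rintro k a ⟨y, hy⟩
    refine ⟨k • y, fun σ => ?_⟩
    rw [Pi.smul_apply, hy σ, act_smul, smul_sub]

/-- the Bloch-Kato Selmer group: the Selmer cocycles modulo the coboundaries -/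
abbrev H1f (ρ : Rep) (w : Ideal ZB) (f : T2) : Type :=
  Sel ρ w f ⧸ (B1 ρ).comap (Sel ρ w f).subtype

/-! ### The key theorem -/

/-- no `i` such that both differences `b i - b j` are squares in `ℚ_l`: the curve has no point of
order `4` over `ℚ_l` -/
def NoFour (b : Fin 3 → ℤ) (l : ℕ) [Fact l.Prime] : Prop :=
  ∀ i j k : Fin 3, i ≠ j → i ≠ k → j ≠ k →
    ¬ (IsSquare ((b i - b j : ℤ) : ℚ_[l]) ∧ IsSquare ((b i - b k : ℤ) : ℚ_[l]))

/-- the condition at `2` -/
def AtTwo (b : Fin 3 → ℤ) : Prop := ∃ m : Fin 3, Mid b m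

/-- the conditions on the curve at the odd primes: `l` does not divide `dd b`, or it divides it exactly
once, or there is no point of order `4` over `ℚ_l` -/
def AtOdd (b : Fin 3 → ℤ) : Prop :=
  ∀ (l : ℕ) [Fact l.Prime], l ≠ 2 → ¬ (l : ℤ) ^ 2 ∣ dd b ∨ NoFour b l

/-- there is an odd prime at which all the differences have odd valuation -/
def Twisted (b : Fin 3 → ℤ) : Prop :=
  ∃ q : ℕ, q.Prime ∧ q ≠ 2 ∧ ∃ c : Fin 3 → ℤ, (∀ i, b i = q * c i) ∧ ¬ (q : ℤ) ∣ dd c

/-- **the key theorem** -/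
def S_KEY : Prop := ∀ (b : Fin 3 → ℤ) (ρ : Rep) (w : Ideal ZB) (f : T2) (e : ℕ),
  Function.Injective b → AtTwo b → AtOdd b → Twisted b → Defm b ρ w f →
  (Pool.Agent.TH344.JG.SelJ b).Finite → (Pool.Agent.TH344.JG.SelJ b).ncard ≤ 2 ^ (2 + e) →
  Module.rank ℚ_[2] (H1f ρ w f) ≤ (e : Cardinal)

end Pool.Agent.Q274.HD
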